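import Mathlib

open MvPolynomial

namespace Pool.Agent.Lib_helper31.GC

lemma exists_maximal_over {A B : Type*} [CommRing A] [CommRing B] (g : A →+* B)
    (hinj : Function.Injective g) (hint : g.IsIntegral) (P : Ideal A) [hP : P.IsMaximal] :
    ∃ Q : Ideal B, Q.IsMaximal ∧ Ideal.comap g Q = P := by
  letI : Algebra A B := g.toAlgebra
  haveI : Algebra.IsIntegral A B := ⟨hint⟩
  have hker : RingHom.ker (algebraMap A B) ≤ P := by
    intro u hu
    have h1 : g u = 0 := hu
    have h2 : u = 0 := hinj (by rw [h1, map_zero])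
    rw [h2]; exact P.zero_mem
  exact Ideal.exists_ideal_over_maximal_of_isIntegral P hker

/-- a bounded set of common zeros of complex polynomials is finite -/
theorem finite_of_isBounded_zeros {σ κ : Type*} [Fintype σ] (p : κ → MvPolynomial σ ℂ)
    (hb : Bornology.IsBounded {x : σ → ℂ | ∀ i, eval x (p i) = 0}) :
    Set.Finite {x : σ → ℂ | ∀ i, eval x (p i) = 0} := by
  classical
  set S : Set (σ → ℂ) := {x : σ → ℂ | ∀ i, eval x (p i) = 0} with hS
  rcases S.eq_empty_or_nonempty with hSe | ⟨x1, hx1⟩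
  · rw [hSe]; exact Set.finite_empty
  set I : Ideal (MvPolynomial σ ℂ) := Ideal.span (Set.range p) with hI
  have hIx : ∀ x ∈ S, ∀ q ∈ I, eval x q = 0 := by
    intro x hx q hq
    have : I ≤ RingHom.ker (eval x : MvPolynomial σ ℂ →+* ℂ) := by
      rw [hI, Ideal.span_le]
      rintro _ ⟨i, rfl⟩
      exact hx i
    exact this hq
  have hItop : I ≠ ⊤ := by
    intro h
    have := hIx x1 hx1 1 (by rw [h]; trivial)
    simp at this
  haveI : Nontrivial (MvPolynomial σ ℂ ⧸ I) := Ideal.Quotient.nontrivial_iff.mpr hItop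
  obtain ⟨s, g, hginj, hgint⟩ := exists_integral_inj_algHom_of_fg ℂ (MvPolynomial σ ℂ ⧸ I)
  have hmk : Function.Surjective (Ideal.Quotient.mk I) := Ideal.Quotient.mk_surjective
  have hgC : ∀ c : ℂ, g (C c) = Ideal.Quotient.mk I (C c) := fun c => g.commutes c
  rcases Nat.eq_zero_or_pos s with h0 | hs
  · -- dimension zero
    subst h0
    have hroot : ∀ i : σ, ∃ f : Polynomial ℂ, f ≠ 0 ∧ ∀ x ∈ S, f.eval (x i) = 0 := by
      intro i
      obtain ⟨f, hf, hf2⟩ := hgint (Ideal.Quotient.mk I (X i))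
      let e : MvPolynomial (Fin 0) ℂ ≃ₐ[ℂ] ℂ := MvPolynomial.isEmptyAlgEquiv ℂ (Fin 0)
      refine ⟨f.map (e : MvPolynomial (Fin 0) ℂ →+* ℂ), (hf.map _).ne_zero, fun x hx => ?_⟩
      -- evaluation at x on the quotient
      let ev : (MvPolynomial σ ℂ ⧸ I) →+* ℂ := Ideal.Quotient.lift I (eval x) (hIx x hx)
      have h1 := congrArg ev hf2
      rw [Polynomial.hom_eval₂, map_zero] at h1
      have h2 : ev (Ideal.Quotient.mk I (X i)) = x i := by
        show Ideal.Quotient.lift I (eval x) (hIx x hx) (Ideal.Quotient.mk I (X i)) = x i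
        rw [Ideal.Quotient.lift_mk, eval_X]
      rw [h2] at h1
      rw [Polynomial.eval_map]
      have h3 : ev.comp (g : MvPolynomial (Fin 0) ℂ →+* (MvPolynomial σ ℂ ⧸ I))
          = (e : MvPolynomial (Fin 0) ℂ →+* ℂ) := by
        refine MvPolynomial.ringHom_ext (fun c => ?_) (fun j => j.elim0)
        have h4 : (g : MvPolynomial (Fin 0) ℂ →+* (MvPolynomial σ ℂ ⧸ I)) (C c)
            = Ideal.Quotient.mk I (C c) := hgC c
        rw [RingHom.comp_apply, h4]
        show Ideal.Quotient.lift I (eval x) (hIx x hx) (Ideal.Quotient.mk I (C c)) = _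
        rw [Ideal.Quotient.lift_mk, eval_C]
        exact (e.commutes c).symm
      rw [← h3]
      exact h1
    choose f hf hfS using hroot
    refine (Set.Finite.pi (fun i => ((f i).roots.toFinset : Set ℂ).toFinite)).subset
      (fun x hx => ?_)
    rw [Set.mem_univ_pi]
    intro i
    rw [Finset.mem_coe, Multiset.mem_toFinset, Polynomial.mem_roots (hf i)]
    exact hfS i x hx
  · exfalso
    obtain ⟨q, hq⟩ := hmk (g (X ⟨0, hs⟩))
    -- q takes all values on S
    have hall : ∀ a : ℂ, ∃ x ∈ S, eval x q = a := by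
      intro a
      let P : Ideal (MvPolynomial (Fin s) ℂ) :=
        RingHom.ker (eval (fun _ => a) : MvPolynomial (Fin s) ℂ →+* ℂ)
      haveI hPmax : P.IsMaximal :=
        RingHom.ker_isMaximal_of_surjective _ (fun c => ⟨C c, eval_C _⟩)
      obtain ⟨Q, hQmax, hQ⟩ := exists_maximal_over
        (g : MvPolynomial (Fin s) ℂ →+* (MvPolynomial σ ℂ ⧸ I)) hginj hgint P
      have hQ' : (Ideal.comap (Ideal.Quotient.mk I) Q).IsMaximal :=
        Ideal.comap_isMaximal_of_surjective _ hmk
      obtain ⟨x, hx⟩ := MvPolynomial.isMaximal_iff_eq_vanishingIdeal_singleton.mp hQ'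
      have hev : ∀ u, Ideal.Quotient.mk I u ∈ Q → eval x u = 0 := by
        intro u hu
        have h1 : u ∈ Ideal.comap (Ideal.Quotient.mk I) Q := hu
        rw [hx, mem_vanishingIdeal_iff] at h1
        have := h1 x rfl
        rwa [MvPolynomial.aeval_eq_eval] at this
      refine ⟨x, fun i => hev _ ?_, ?_⟩
      · have : Ideal.Quotient.mk I (p i) = 0 :=
          Ideal.Quotient.eq_zero_iff_mem.mpr (Ideal.subset_span ⟨i, rfl⟩)
        rw [this]; exact Q.zero_mem
      · have h1 : (X ⟨0, hs⟩ - C a : MvPolynomial (Fin s) ℂ) ∈ P := by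
          rw [RingHom.mem_ker, map_sub, eval_X, eval_C, sub_self]
        have h2 : (X ⟨0, hs⟩ - C a : MvPolynomial (Fin s) ℂ) ∈
            Ideal.comap (g : MvPolynomial (Fin s) ℂ →+* (MvPolynomial σ ℂ ⧸ I)) Q := by
          rw [hQ]; exact h1
        have h3 : g (X ⟨0, hs⟩ - C a : MvPolynomial (Fin s) ℂ) ∈ Q := h2
        rw [map_sub, ← hq, hgC, ← map_sub] at h3
        have h5 := hev _ h3
        rw [map_sub, eval_C, sub_eq_zero] at h5
        exact h5
    -- but q is bounded on S
    obtain ⟨C0, hC0⟩ := hb.isCompact_closure.exists_bound_of_continuousOn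
      (f := fun x : σ → ℂ => eval x q) (MvPolynomial.continuous_eval q).continuousOn
    obtain ⟨x, hx, hxv⟩ := hall ((|C0| + 1 : ℝ) : ℂ)
    have h1 := hC0 x (subset_closure hx)
    simp only [hxv] at h1
    rw [Complex.norm_real, Real.norm_of_nonneg (by positivity)] at h1
    linarith [le_abs_self C0]

end Pool.Agent.Lib_helper31.GC
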