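import Mathlib

open Finset Matrix MvPolynomial

namespace Pool.Agent.Lib_helper31.GC

variable {ι : Type*} [Fintype ι] [DecidableEq ι]

section Alg
variable {R : Type*} [CommRing R] {A : Type*} [CommRing A] [Algebra R A]

omit [Fintype ι] in
/-- derivation of a product -/
lemma der_prod (D : Derivation R A A) (s : Finset ι) (f : ι → A) :
    D (∏ i ∈ s, f i) = ∑ i ∈ s, (∏ j ∈ s.erase i, f j) * D (f i) := by
  classical
  induction s using Finset.induction_on with
  | empty => simp
  | insert a s ha ih =>
    rw [Finset.prod_insert ha, D.leibniz, ih, Finset.sum_insert ha,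
      Finset.erase_insert ha]
    have : ∑ i ∈ s, (∏ j ∈ (insert a s).erase i, f j) * D (f i)
        = f a * ∑ i ∈ s, (∏ j ∈ s.erase i, f j) * D (f i) := by
      rw [Finset.mul_sum]
      refine Finset.sum_congr rfl (fun i hi => ?_)
      have hne : a ≠ i := fun h => ha (h ▸ hi)
      rw [Finset.erase_insert_of_ne hne, Finset.prod_insert (by
        intro h; exact ha (Finset.mem_of_mem_erase h))]
      ring
    rw [this]
    simp only [smul_eq_mul]
    ring

/-- derivation of a determinant, by rows -/
lemma der_det (D : Derivation R A A) (M : Matrix ι ι A) :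
    D M.det = ∑ i, (M.updateRow i (fun j => D (M i j))).det := by
  have h1 : ∀ i, (M.updateRow i (fun j => D (M i j))).det
      = ∑ σ : Equiv.Perm ι, ((Equiv.Perm.sign σ : ℤ) : A) *
        ((∏ j ∈ Finset.univ.erase (σ.symm i), M (σ j) j) * D (M i (σ.symm i))) := by
    intro i
    rw [Matrix.det_apply']
    refine Finset.sum_congr rfl (fun σ _ => ?_)
    congr 1
    rw [← Finset.mul_prod_erase Finset.univ _ (Finset.mem_univ (σ.symm i))]
    rw [mul_comm]
    congr 1
    · refine Finset.prod_congr rfl (fun j hj => ?_)
      have hne : σ j ≠ i := by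
        intro h
        apply (Finset.ne_of_mem_erase hj)
        rw [← h]; simp
      rw [Matrix.updateRow_ne hne]
    · simp
  rw [Finset.sum_congr rfl (fun i _ => h1 i), Finset.sum_comm, Matrix.det_apply', map_sum]
  refine Finset.sum_congr rfl (fun σ _ => ?_)
  rw [D.leibniz]
  have h0 : D (((Equiv.Perm.sign σ : ℤ) : A)) = 0 := D.map_intCast _
  rw [h0, smul_zero, add_zero, der_prod, smul_eq_mul, ← Finset.mul_sum]
  congr 1
  rw [← Equiv.sum_comp σ.symm (fun j => (∏ l ∈ Finset.univ.erase j, M (σ l) l) * D (M (σ j) j))]
  refine Finset.sum_congr rfl (fun i _ => ?_)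
  simp

end Alg

/-- Jacobian matrix of a polynomial map: rows = components, columns = variables -/
noncomputable def jacM (P : ι → MvPolynomial ι ℂ) : Matrix ι ι (MvPolynomial ι ℂ) :=
  fun i k => pderiv k (P i)

lemma updateRow_det_swap {A : Type*} [CommRing A] (M : Matrix ι ι A) {i j : ι} (hij : i ≠ j)
    (u v : ι → A) :
    ((M.updateRow j u).updateRow i v).det = - ((M.updateRow j v).updateRow i u).det := by
  have h : ((M.updateRow j u).updateRow i v)
      = (((M.updateRow j v).updateRow i u).submatrix (Equiv.swap i j) id) := by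
    ext a b
    simp only [Matrix.submatrix_apply, id]
    by_cases ha : a = i
    · subst ha
      rw [Equiv.swap_apply_left, Matrix.updateRow_self, Matrix.updateRow_ne hij.symm,
        Matrix.updateRow_self]
    · by_cases hb : a = j
      · subst hb
        rw [Equiv.swap_apply_right, Matrix.updateRow_self, Matrix.updateRow_ne ha,
          Matrix.updateRow_self]
      · rw [Equiv.swap_apply_of_ne_of_ne ha hb, Matrix.updateRow_ne ha, Matrix.updateRow_ne hb,
          Matrix.updateRow_ne ha, Matrix.updateRow_ne hb]
  rw [h, Matrix.det_permute, Equiv.Perm.sign_swap hij]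
  simp

lemma pderiv_comm' (k l : ι) (p : MvPolynomial ι ℂ) :
    pderiv k (pderiv l p) = pderiv l (pderiv k p) := by
  induction p using MvPolynomial.induction_on with
  | C a => simp
  | add p q hp hq => simp [hp, hq]
  | mul_X p i hp =>
    have hz : ∀ a b : ι, pderiv a (pderiv b (X i : MvPolynomial ι ℂ)) = 0 := by
      intro a b
      by_cases h : i = b
      · subst h; simp
      · rw [pderiv_X_of_ne h]; simp
    simp only [Derivation.leibniz, smul_eq_mul, map_add, hp, hz]
    ring

/-- **Piola identity** for polynomial maps. -/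
theorem piola (P : ι → MvPolynomial ι ℂ) (j : ι) :
    ∑ k, pderiv k ((jacM P).adjugate k j) = 0 := by
  classical
  have h1 : ∀ k, pderiv k ((jacM P).adjugate k j)
      = ∑ i ∈ Finset.univ.erase j, ∑ l,
        pderiv k (pderiv l (P i)) *
          ((((jacM P).updateRow j (Pi.single k 1)).updateRow i (Pi.single l 1)).det) := by
    intro k
    rw [Matrix.adjugate_apply, der_det]
    rw [← Finset.add_sum_erase Finset.univ _ (Finset.mem_univ j)]
    have hz : (((jacM P).updateRow j (Pi.single k 1)).updateRow j
        (fun l => pderiv k (((jacM P).updateRow j (Pi.single k 1)) j l))).det = 0 := by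
      apply Matrix.det_eq_zero_of_row_eq_zero j
      intro l
      rw [Matrix.updateRow_self, Matrix.updateRow_self]
      by_cases h : l = k
      · subst h; simp
      · simp [h]
    rw [hz, zero_add]
    refine Finset.sum_congr rfl (fun i hi => ?_)
    have hij : i ≠ j := Finset.ne_of_mem_erase hi
    rw [← Matrix.cramer_transpose_apply, Matrix.cramer_eq_adjugate_mulVec, Matrix.mulVec,
      dotProduct]
    refine Finset.sum_congr rfl (fun l _ => ?_)
    rw [Matrix.updateRow_ne hij, ← Matrix.adjugate_transpose, Matrix.transpose_apply,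
      Matrix.adjugate_apply, mul_comm]
    rfl
  rw [Finset.sum_congr rfl (fun k _ => h1 k), Finset.sum_comm]
  refine Finset.sum_eq_zero (fun i hi => ?_)
  have hij : i ≠ j := Finset.ne_of_mem_erase hi
  set d : ι → ι → MvPolynomial ι ℂ := fun k l =>
    ((((jacM P).updateRow j (Pi.single k 1)).updateRow i (Pi.single l 1)).det) with hd
  have hanti : ∀ k l, d k l = - d l k := fun k l => updateRow_det_swap _ hij _ _
  set S := ∑ k, ∑ l, pderiv k (pderiv l (P i)) * d k l with hS
  have : S = - S := by
    conv_lhs => rw [hS, Finset.sum_comm]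
    rw [hS, ← Finset.sum_neg_distrib]
    refine Finset.sum_congr rfl (fun k _ => ?_)
    rw [← Finset.sum_neg_distrib]
    refine Finset.sum_congr rfl (fun l _ => ?_)
    rw [hanti l k, pderiv_comm' l k]
    ring
  exact self_eq_neg.mp this

end Pool.Agent.Lib_helper31.GC
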