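import Mathlib
import Pool.Agent.Lib_helper31.GC.Piola

open Finset Matrix MvPolynomial MeasureTheory Filter Topology
open scoped ComplexConjugate

namespace Pool.Agent.Lib_helper31.GC

set_option linter.unusedSectionVars false
set_option linter.unusedSimpArgs false
set_option linter.deprecated false

variable {ι : Type*} [Fintype ι] [DecidableEq ι]

/-- squared euclidean length -/
noncomputable def qf (w : ι → ℂ) : ℝ := ∑ j, Complex.normSq (w j)

omit [DecidableEq ι] in
lemma qf_nonneg (w : ι → ℂ) : 0 ≤ qf w := Finset.sum_nonneg (fun _ _ => Complex.normSq_nonneg _)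

omit [DecidableEq ι] in
lemma continuous_qf : Continuous (qf : (ι → ℂ) → ℝ) := by
  unfold qf
  exact continuous_finsetSum _ (fun j _ => Complex.continuous_normSq.comp (continuous_apply j))

omit [DecidableEq ι] in
lemma qf_eq_zero {w : ι → ℂ} : qf w = 0 ↔ w = 0 := by
  unfold qf
  rw [Finset.sum_eq_zero_iff_of_nonneg (fun _ _ => Complex.normSq_nonneg _)]
  constructor
  · intro h
    funext j
    exact Complex.normSq_eq_zero.mp (h j (Finset.mem_univ j))
  · rintro rfl j _
    simp

/-- cut-off profile: smooth, 1 for r <= 0, 0 for r >= 1 -/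
noncomputable def chi (r : ℝ) : ℝ := Real.smoothTransition (1 - r)

lemma chi_contDiff : ContDiff ℝ 1 chi := by
  have h : ContDiff ℝ 1 (fun r : ℝ => 1 - r) := contDiff_const.sub contDiff_id
  exact (Real.smoothTransition.contDiff (n := 1)).comp h

lemma chi_nonneg (r : ℝ) : 0 ≤ chi r := Real.smoothTransition.nonneg _

lemma chi_le_one (r : ℝ) : chi r ≤ 1 := Real.smoothTransition.le_one _

lemma chi_pos {r : ℝ} (h : r < 1) : 0 < chi r := Real.smoothTransition.pos_of_pos (by linarith)

lemma chi_zero {r : ℝ} (h : 1 ≤ r) : chi r = 0 := Real.smoothTransition.zero_of_nonpos (by linarith)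

noncomputable def chi' (r : ℝ) : ℝ := deriv chi r

lemma chi_hasDerivAt (r : ℝ) : HasDerivAt chi (chi' r) r :=
  (chi_contDiff.differentiable (by simp) r).hasDerivAt

lemma continuous_chi : Continuous chi := chi_contDiff.continuous

lemma continuous_chi' : Continuous chi' := chi_contDiff.continuous_deriv (by simp)

/-- derivative of a polynomial function -/
noncomputable def polyD (p : MvPolynomial ι ℂ) (x : ι → ℂ) : (ι → ℂ) →L[ℂ] ℂ :=
  ∑ k, eval x (pderiv k p) • (ContinuousLinearMap.proj k : (ι → ℂ) →L[ℂ] ℂ)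

lemma polyD_apply (p : MvPolynomial ι ℂ) (x v : ι → ℂ) :
    polyD p x v = ∑ k, eval x (pderiv k p) * v k := by
  simp only [polyD, ContinuousLinearMap.coe_sum', Finset.sum_apply,
    ContinuousLinearMap.smul_apply, ContinuousLinearMap.proj_apply, smul_eq_mul]

lemma hasFDerivAt_eval (p : MvPolynomial ι ℂ) (x : ι → ℂ) :
    HasFDerivAt (fun y => eval y p) (polyD p x) x := by
  induction p using MvPolynomial.induction_on with
  | C a =>
    simp only [eval_C]
    refine (hasFDerivAt_const (𝕜 := ℂ) a x).congr_fderiv ?_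
    refine ContinuousLinearMap.ext (fun v => ?_)
    simp [polyD_apply]
  | add p q hp hq =>
    simp only [map_add]
    refine (hp.fun_add hq).congr_fderiv ?_
    refine ContinuousLinearMap.ext (fun v => ?_)
    simp only [polyD_apply, ContinuousLinearMap.add_apply, map_add, add_mul,
      Finset.sum_add_distrib]
  | mul_X p i hp =>
    have h1 : HasFDerivAt (fun y : ι → ℂ => y i) (ContinuousLinearMap.proj i : (ι → ℂ) →L[ℂ] ℂ) x :=
      (ContinuousLinearMap.proj i : (ι → ℂ) →L[ℂ] ℂ).hasFDerivAt
    simp only [map_mul, eval_X]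
    refine (hp.fun_mul h1).congr_fderiv ?_
    refine ContinuousLinearMap.ext (fun v => ?_)
    simp only [polyD_apply, ContinuousLinearMap.add_apply, ContinuousLinearMap.smul_apply,
      ContinuousLinearMap.proj_apply, smul_eq_mul, Derivation.leibniz, map_add, map_mul, eval_X,
      add_mul, Finset.sum_add_distrib, Finset.mul_sum]
    congr 1
    · rw [Finset.sum_eq_single i]
      · simp
      · intro b _ hb
        rw [pderiv_X_of_ne (Ne.symm hb)]; simp
      · simp
    · exact Finset.sum_congr rfl (fun k _ => by ring)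

lemma polyD_single (p : MvPolynomial ι ℂ) (x : ι → ℂ) (k : ι) (c : ℂ) :
    polyD p x (Pi.single k c) = c * eval x (pderiv k p) := by
  rw [polyD_apply, Finset.sum_eq_single k]
  · simp [mul_comm]
  · intro b _ hb; simp [hb]
  · simp

lemma continuous_eval (p : MvPolynomial ι ℂ) : Continuous (fun x : ι → ℂ => eval x p) :=
  continuous_iff_continuousAt.mpr (fun x => (hasFDerivAt_eval p x).continuousAt)

lemma continuous_polyD (p : MvPolynomial ι ℂ) : Continuous (fun x : ι → ℂ => polyD p x) := by
  unfold polyD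
  exact continuous_finsetSum _ (fun k _ => (continuous_eval _).smul continuous_const)

/-- the d-bar functional on real-linear maps -/
noncomputable def dbarL (k : ι) (L : (ι → ℂ) →L[ℝ] ℂ) : ℂ :=
  (L (Pi.single k 1) + Complex.I * L (Pi.single k Complex.I)) / 2

lemma dbarL_add (k : ι) (L M : (ι → ℂ) →L[ℝ] ℂ) : dbarL k (L + M) = dbarL k L + dbarL k M := by
  simp only [dbarL, ContinuousLinearMap.add_apply]; ring

lemma dbarL_smul (k : ι) (c : ℂ) (L : (ι → ℂ) →L[ℝ] ℂ) : dbarL k (c • L) = c * dbarL k L := by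
  simp only [dbarL, ContinuousLinearMap.smul_apply, smul_eq_mul]; ring

lemma dbarL_sum {κ : Type*} (s : Finset κ) (k : ι) (L : κ → (ι → ℂ) →L[ℝ] ℂ) :
    dbarL k (∑ a ∈ s, L a) = ∑ a ∈ s, dbarL k (L a) := by
  classical
  induction s using Finset.induction_on with
  | empty => simp [dbarL]
  | insert a s ha ih => rw [Finset.sum_insert ha, dbarL_add, ih, Finset.sum_insert ha]

/-- real derivative of a polynomial function -/
noncomputable def polyDR (p : MvPolynomial ι ℂ) (x : ι → ℂ) : (ι → ℂ) →L[ℝ] ℂ :=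
  (polyD p x).restrictScalars ℝ

/-- real derivative of the conjugate of a polynomial function -/
noncomputable def polyDC (p : MvPolynomial ι ℂ) (x : ι → ℂ) : (ι → ℂ) →L[ℝ] ℂ :=
  (Complex.conjCLE : ℂ →L[ℝ] ℂ).comp (polyDR p x)

lemma hasFDerivAt_evalR (p : MvPolynomial ι ℂ) (x : ι → ℂ) :
    HasFDerivAt (fun y => eval y p) (polyDR p x) x :=
  (hasFDerivAt_eval p x).restrictScalars ℝ

lemma hasFDerivAt_evalC (p : MvPolynomial ι ℂ) (x : ι → ℂ) :
    HasFDerivAt (fun y => conj (eval y p)) (polyDC p x) x :=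
  ((Complex.conjCLE : ℂ →L[ℝ] ℂ).hasFDerivAt).comp x (hasFDerivAt_evalR p x)

lemma dbarL_polyDR (p : MvPolynomial ι ℂ) (x : ι → ℂ) (k : ι) : dbarL k (polyDR p x) = 0 := by
  simp only [dbarL, polyDR, ContinuousLinearMap.coe_restrictScalars', polyD_single]
  rw [← mul_assoc, Complex.I_mul_I]; ring

lemma dbarL_polyDC (p : MvPolynomial ι ℂ) (x : ι → ℂ) (k : ι) :
    dbarL k (polyDC p x) = conj (eval x (pderiv k p)) := by
  simp only [dbarL, polyDC, polyDR, ContinuousLinearMap.comp_apply,
    ContinuousLinearMap.coe_restrictScalars', polyD_single]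
  simp only [ContinuousLinearEquiv.coe_coe, Complex.conjCLE_apply, map_mul, Complex.conj_I, one_mul]
  rw [← mul_assoc, mul_neg, Complex.I_mul_I]; ring

lemma continuous_polyDR (p : MvPolynomial ι ℂ) : Continuous (fun x : ι → ℂ => polyDR p x) :=
  (ContinuousLinearMap.restrictScalarsL ℂ (ι → ℂ) ℂ ℝ ℝ).continuous.comp (continuous_polyD p)

lemma continuous_polyDC (p : MvPolynomial ι ℂ) : Continuous (fun x : ι → ℂ => polyDC p x) := by
  unfold polyDC
  exact continuous_const.clm_comp (continuous_polyDR p)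

end Pool.Agent.Lib_helper31.GC
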