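import Mathlib
import Pool.Agent.Lib_helper31.GC.Dbar

open Finset Matrix MvPolynomial MeasureTheory Filter Topology
open scoped ComplexConjugate

namespace Pool.Agent.Lib_helper31.GC

set_option linter.unusedSectionVars false
set_option linter.unusedSimpArgs false
set_option linter.deprecated false

variable {ι : Type*} [Fintype ι] [DecidableEq ι]

/-- polynomial map -/
noncomputable def pm (P : ι → MvPolynomial ι ℂ) (x : ι → ℂ) : ι → ℂ := fun j => eval x (P j)

lemma continuous_pm (P : ι → MvPolynomial ι ℂ) : Continuous (pm P) :=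
  continuous_pi (fun j => continuous_eval (P j))

/-- polynomial Jacobian determinant -/
noncomputable def jdet (P : ι → MvPolynomial ι ℂ) : MvPolynomial ι ℂ := (jacM P).det

/-- squared length of the map -/
noncomputable def qp (P : ι → MvPolynomial ι ℂ) (x : ι → ℂ) : ℝ := qf (pm P x)

lemma continuous_qp (P : ι → MvPolynomial ι ℂ) : Continuous (qp P) :=
  continuous_qf.comp (continuous_pm P)

noncomputable def Lq (P : ι → MvPolynomial ι ℂ) (x : ι → ℂ) : (ι → ℂ) →L[ℝ] ℂ :=
  ∑ j, (eval x (P j) • polyDC (P j) x + conj (eval x (P j)) • polyDR (P j) x)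

lemma qp_eq (P : ι → MvPolynomial ι ℂ) (x : ι → ℂ) :
    ((qp P x : ℝ) : ℂ) = ∑ j, eval x (P j) * conj (eval x (P j)) := by
  simp only [qp, qf, pm, Complex.ofReal_sum, Complex.mul_conj]

lemma hasFDerivAt_qpC (P : ι → MvPolynomial ι ℂ) (x : ι → ℂ) :
    HasFDerivAt (fun y => ((qp P y : ℝ) : ℂ)) (Lq P x) x := by
  simp only [qp_eq]
  exact HasFDerivAt.fun_sum (fun j _ => (hasFDerivAt_evalR (P j) x).fun_mul
    (hasFDerivAt_evalC (P j) x))

lemma hasFDerivAt_qp (P : ι → MvPolynomial ι ℂ) (x : ι → ℂ) :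
    HasFDerivAt (qp P) (Complex.reCLM.comp (Lq P x)) x := by
  have h := (Complex.reCLM.hasFDerivAt).comp x (hasFDerivAt_qpC P x)
  refine h.congr_of_eventuallyEq (Eventually.of_forall (fun y => ?_))
  simp

lemma ofReal_re_Lq (P : ι → MvPolynomial ι ℂ) (x : ι → ℂ) :
    Complex.ofRealCLM.comp (Complex.reCLM.comp (Lq P x)) = Lq P x := by
  have h := (Complex.ofRealCLM.hasFDerivAt).comp x (hasFDerivAt_qp P x)
  exact h.unique (hasFDerivAt_qpC P x)

lemma continuous_Lq (P : ι → MvPolynomial ι ℂ) : Continuous (Lq P) := by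
  unfold Lq
  exact continuous_finsetSum _ (fun j _ => ((continuous_eval (P j)).smul
    (continuous_polyDC (P j))).add ((Complex.continuous_conj.comp (continuous_eval (P j))).smul
    (continuous_polyDR (P j))))

/-- the cut-off factor -/
noncomputable def cut (P : ι → MvPolynomial ι ℂ) (s : ℝ) (x : ι → ℂ) : ℝ :=
  s ^ (Fintype.card ι) * chi (s * qp P x)

lemma hasFDerivAt_cut (P : ι → MvPolynomial ι ℂ) (s : ℝ) (x : ι → ℂ) :
    HasFDerivAt (fun y => ((cut P s y : ℝ) : ℂ))
      (((s ^ (Fintype.card ι) * (chi' (s * qp P x) * s) : ℝ) : ℂ) • Lq P x) x := by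
  have h1 : HasFDerivAt (fun y => s * qp P y) (s • Complex.reCLM.comp (Lq P x)) x :=
    (hasFDerivAt_qp P x).const_mul s
  have h2 := (chi_hasDerivAt (s * qp P x)).comp_hasFDerivAt x h1
  have h3 := h2.const_mul (s ^ (Fintype.card ι))
  have h4 := (Complex.ofRealCLM.hasFDerivAt).comp x h3
  refine HasFDerivAt.congr_fderiv h4 ?_
  refine ContinuousLinearMap.ext (fun v => ?_)
  have h5 := congrArg (fun L => L v) (ofReal_re_Lq P x)
  simp only [ContinuousLinearMap.comp_apply, ContinuousLinearMap.smul_apply, smul_eq_mul,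
    Complex.ofRealCLM_apply, Complex.reCLM_apply] at h5 ⊢
  conv_rhs => rw [← h5]
  push_cast
  ring

/-- components of adj(DG) G as polynomials -/
noncomputable def Wp (P : ι → MvPolynomial ι ℂ) (k : ι) : MvPolynomial ι ℂ :=
  ∑ j, (jacM P).adjugate k j * P j

lemma sum_pderiv_Wp (P : ι → MvPolynomial ι ℂ) :
    ∑ k, pderiv k (Wp P k) = (Fintype.card ι : MvPolynomial ι ℂ) * jdet P := by
  have h1 : ∀ k, pderiv k (Wp P k) = ∑ j, (pderiv k ((jacM P).adjugate k j) * P j)
      + ∑ j, (jacM P) j k * (jacM P).adjugate k j := by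
    intro k
    rw [Wp, map_sum, ← Finset.sum_add_distrib]
    refine Finset.sum_congr rfl (fun j _ => ?_)
    rw [Derivation.leibniz]
    simp only [smul_eq_mul, jacM]
    ring
  rw [Finset.sum_congr rfl (fun k _ => h1 k), Finset.sum_add_distrib]
  have h2 : ∑ k, ∑ j, pderiv k ((jacM P).adjugate k j) * P j = 0 := by
    rw [Finset.sum_comm]
    refine Finset.sum_eq_zero (fun j _ => ?_)
    rw [← Finset.sum_mul, piola, zero_mul]
  have h3 : ∑ k, ∑ j, (jacM P) j k * (jacM P).adjugate k j
      = (Fintype.card ι : MvPolynomial ι ℂ) * jdet P := by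
    rw [Finset.sum_comm]
    have : ∀ j, ∑ k, (jacM P) j k * (jacM P).adjugate k j = jdet P := by
      intro j
      have := congrFun (congrFun (Matrix.mul_adjugate (jacM P)) j) j
      rw [Matrix.mul_apply] at this
      rw [this]
      simp [jdet]
    rw [Finset.sum_congr rfl (fun j _ => this j), Finset.sum_const, Finset.card_univ, nsmul_eq_mul]
  rw [h2, h3, zero_add]

lemma sum_Wp_mul (P : ι → MvPolynomial ι ℂ) (i : ι) :
    ∑ k, Wp P k * pderiv k (P i) = P i * jdet P := by
  have h1 : ∀ k, Wp P k * pderiv k (P i) = ∑ j, P j * ((jacM P) i k * (jacM P).adjugate k j) := by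
    intro k
    rw [Wp, Finset.sum_mul]
    refine Finset.sum_congr rfl (fun j _ => ?_)
    simp only [jacM]
    ring
  rw [Finset.sum_congr rfl (fun k _ => h1 k), Finset.sum_comm]
  have h2 : ∀ j, ∑ k, P j * ((jacM P) i k * (jacM P).adjugate k j)
      = P j * (if i = j then jdet P else 0) := by
    intro j
    rw [← Finset.mul_sum]
    congr 1
    have := congrFun (congrFun (Matrix.mul_adjugate (jacM P)) i) j
    rw [Matrix.mul_apply] at this
    rw [this]
    simp [jdet, Matrix.one_apply]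
  rw [Finset.sum_congr rfl (fun j _ => h2 j)]
  simp

/-- vector field -/
noncomputable def VF (P : ι → MvPolynomial ι ℂ) (H : MvPolynomial ι ℂ) (s : ℝ) (k : ι)
    (x : ι → ℂ) : ℂ :=
  eval x H * conj (eval x (Wp P k)) * (cut P s x : ℝ)

noncomputable def VD (P : ι → MvPolynomial ι ℂ) (H : MvPolynomial ι ℂ) (s : ℝ) (k : ι)
    (x : ι → ℂ) : (ι → ℂ) →L[ℝ] ℂ :=
  (eval x H * conj (eval x (Wp P k))) •
      (((s ^ (Fintype.card ι) * (chi' (s * qp P x) * s) : ℝ) : ℂ) • Lq P x)
    + ((cut P s x : ℝ) : ℂ) • (eval x H • polyDC (Wp P k) x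
      + conj (eval x (Wp P k)) • polyDR H x)

lemma hasFDerivAt_VF (P : ι → MvPolynomial ι ℂ) (H : MvPolynomial ι ℂ) (s : ℝ) (k : ι)
    (x : ι → ℂ) : HasFDerivAt (VF P H s k) (VD P H s k x) x :=
  ((hasFDerivAt_evalR H x).fun_mul (hasFDerivAt_evalC (Wp P k) x)).fun_mul (hasFDerivAt_cut P s x)

lemma continuous_cut (P : ι → MvPolynomial ι ℂ) (s : ℝ) : Continuous (cut P s) := by
  unfold cut
  exact continuous_const.mul (continuous_chi.comp (continuous_const.mul (continuous_qp P)))

lemma continuous_VD (P : ι → MvPolynomial ι ℂ) (H : MvPolynomial ι ℂ) (s : ℝ) (k : ι) :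
    Continuous (VD P H s k) := by
  unfold VD
  have c1 : Continuous (fun x : ι → ℂ => conj (eval x (Wp P k))) :=
    Complex.continuous_conj.comp (continuous_eval _)
  have c2 : Continuous (fun x => ((s ^ (Fintype.card ι) * (chi' (s * qp P x) * s) : ℝ) : ℂ)) := by
    refine Complex.continuous_ofReal.comp (continuous_const.mul ?_)
    exact (continuous_chi'.comp (continuous_const.mul (continuous_qp P))).mul continuous_const
  refine Continuous.add ?_ ?_
  · exact ((continuous_eval H).mul c1).smul (c2.smul (continuous_Lq P))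
  · refine (Complex.continuous_ofReal.comp (continuous_cut P s)).smul ?_
    exact ((continuous_eval H).smul (continuous_polyDC _)).add (c1.smul (continuous_polyDR H))

/-- the density whose integral vanishes -/
noncomputable def dens (P : ι → MvPolynomial ι ℂ) (H : MvPolynomial ι ℂ) (s : ℝ)
    (x : ι → ℂ) : ℂ :=
  eval x H * conj (eval x (jdet P)) *
    (((Fintype.card ι : ℝ) * (s ^ (Fintype.card ι) * chi (s * qp P x))
      + s ^ (Fintype.card ι) * (chi' (s * qp P x) * s) * qp P x : ℝ) : ℂ)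

lemma sum_dbar_VD (P : ι → MvPolynomial ι ℂ) (H : MvPolynomial ι ℂ) (s : ℝ) (x : ι → ℂ) :
    ∑ k, dbarL k (VD P H s k x) = dens P H s x := by
  have hLq : ∀ k, dbarL k (Lq P x) = ∑ i, eval x (P i) * conj (eval x (pderiv k (P i))) := by
    intro k
    rw [Lq, dbarL_sum]
    refine Finset.sum_congr rfl (fun i _ => ?_)
    rw [dbarL_add, dbarL_smul, dbarL_smul, dbarL_polyDC, dbarL_polyDR]; ring
  have h1 : ∀ k, dbarL k (VD P H s k x)
      = eval x H * ((s ^ (Fintype.card ι) * (chi' (s * qp P x) * s) : ℝ) : ℂ) *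
          (∑ i, eval x (P i) * conj (eval x (Wp P k * pderiv k (P i))))
        + eval x H * ((cut P s x : ℝ) : ℂ) * conj (eval x (pderiv k (Wp P k))) := by
    intro k
    simp only [VD]
    rw [dbarL_add, dbarL_smul, dbarL_smul, dbarL_smul, dbarL_add, dbarL_smul, dbarL_smul,
      dbarL_polyDC, dbarL_polyDR, hLq k]
    have : ∑ i, eval x (P i) * conj (eval x (Wp P k * pderiv k (P i)))
        = conj (eval x (Wp P k)) * ∑ i, eval x (P i) * conj (eval x (pderiv k (P i))) := by
      rw [Finset.mul_sum]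
      refine Finset.sum_congr rfl (fun i _ => ?_)
      rw [map_mul, map_mul]; ring
    rw [this]
    ring
  rw [Finset.sum_congr rfl (fun k _ => h1 k), Finset.sum_add_distrib, ← Finset.mul_sum,
    ← Finset.mul_sum, Finset.sum_comm]
  have h2 : ∀ i, ∑ k, eval x (P i) * conj (eval x (Wp P k * pderiv k (P i)))
      = eval x (P i) * conj (eval x (P i)) * conj (eval x (jdet P)) := by
    intro i
    rw [← Finset.mul_sum, ← map_sum, ← map_sum, sum_Wp_mul, map_mul, map_mul]; ring
  have h3 : ∑ k, conj (eval x (pderiv k (Wp P k)))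
      = (Fintype.card ι : ℂ) * conj (eval x (jdet P)) := by
    rw [← map_sum, ← map_sum, sum_pderiv_Wp, map_mul, map_mul]
    simp
  rw [Finset.sum_congr rfl (fun i _ => h2 i), ← Finset.sum_mul, ← qp_eq, h3, dens, cut]
  push_cast
  ring

end Pool.Agent.Lib_helper31.GC
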