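import Mathlib
import Pool.Agent.Lib_helper31.GC.Field

open Finset Matrix MvPolynomial MeasureTheory Filter Topology
open scoped ComplexConjugate

namespace Pool.Agent.Lib_helper31.GC

set_option linter.unusedSectionVars false
set_option linter.unusedSimpArgs false
set_option linter.deprecated false

variable {ι : Type*} [Fintype ι] [DecidableEq ι]

lemma chi'_zero {r : ℝ} (h : 1 < r) : chi' r = 0 := by
  have h1 : chi =ᶠ[𝓝 r] (fun _ => (0 : ℝ)) := by
    filter_upwards [lt_mem_nhds h] with y hy using chi_zero (le_of_lt hy)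
  rw [chi', h1.deriv_eq]
  simp

lemma hasFDerivAt_indicator {f : (ι → ℂ) → ℂ} {f' : (ι → ℂ) → (ι → ℂ) →L[ℝ] ℂ}
    (hf : ∀ x, HasFDerivAt f (f' x) x) {B : Set (ι → ℂ)} (hB : IsOpen B)
    (hfr : ∀ x ∈ frontier B, ∀ᶠ y in 𝓝 x, f y = 0) (x : ι → ℂ) :
    HasFDerivAt (B.indicator f) (B.indicator f' x) x := by
  by_cases hx : x ∈ B
  · rw [Set.indicator_of_mem hx]
    refine (hf x).congr_of_eventuallyEq ?_
    filter_upwards [hB.mem_nhds hx] with y hy using Set.indicator_of_mem hy _
  · rw [Set.indicator_of_notMem hx]
    refine (hasFDerivAt_const (𝕜 := ℝ) (0 : ℂ) x).congr_of_eventuallyEq ?_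
    by_cases hx2 : x ∈ closure B
    · have hxf : x ∈ frontier B := ⟨hx2, by rwa [hB.interior_eq]⟩
      filter_upwards [hfr x hxf] with y hy
      by_cases hyB : y ∈ B
      · rw [Set.indicator_of_mem hyB, hy]
      · rw [Set.indicator_of_notMem hyB]
    · filter_upwards [isClosed_closure.isOpen_compl.mem_nhds hx2] with y hy
      exact Set.indicator_of_notMem (fun h => hy (subset_closure h)) _

lemma integral_hasFDerivAt_zero {F : (ι → ℂ) → ℂ} {F' : (ι → ℂ) → (ι → ℂ) →L[ℝ] ℂ}
    (h : ∀ x, HasFDerivAt F (F' x) x) (hc : Continuous F') (hs : HasCompactSupport F)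
    (v : ι → ℂ) : ∫ x, F' x v = 0 := by
  have hF : Continuous F := continuous_iff_continuousAt.mpr (fun x => (h x).continuousAt)
  have hF' : F' = fderiv ℝ F := by funext x; exact (h x).fderiv.symm
  have hs' : HasCompactSupport F' := by rw [hF']; exact hs.fderiv ℝ
  have hs'' : HasCompactSupport (fun x => F' x v) :=
    hs'.comp_left (g := fun L : (ι → ℂ) →L[ℝ] ℂ => L v) (by simp)
  have hc' : Continuous (fun x => F' x v) := hc.clm_apply continuous_const
  have key := integral_bilinear_hasFDerivAt_right_eq_neg_left_of_integrable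
    (μ := (volume : Measure (ι → ℂ)))
    (f := fun _ : ι → ℂ => (1 : ℝ)) (f' := fun _ => (0 : (ι → ℂ) →L[ℝ] ℝ)) (g := F) (g' := F')
    (v := v) (B := ContinuousLinearMap.lsmul ℝ ℝ) (by simp)
    (by simpa using hc'.integrable_of_hasCompactSupport hs'')
    (by simpa using hF.integrable_of_hasCompactSupport hs)
    (fun x _ => hasFDerivAt_const (𝕜 := ℝ) (1 : ℝ) x) (fun x _ => h x)
  simpa using key

section
variable (P : ι → MvPolynomial ι ℂ) (H : MvPolynomial ι ℂ) (x0 : ι → ℂ) (R : ℝ)

lemma integral_dens_zero (hR : 0 < R) {s : ℝ} (hS : ∀ y ∈ Metric.sphere x0 R, 1 < s * qp P y) :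
    ∫ x, (Metric.ball x0 R).indicator (dens P H s) x = 0 := by
  have hfr : ∀ x ∈ frontier (Metric.ball x0 R), 1 < s * qp P x := by
    intro x hx
    rw [frontier_ball x0 hR.ne'] at hx
    exact hS x hx
  have hcq : Continuous (fun y => s * qp P y) := continuous_const.mul (continuous_qp P)
  have hcut0 : ∀ y, 1 < s * qp P y → cut P s y = 0 := by
    intro y hy
    rw [cut, chi_zero hy.le, mul_zero]
  have hD : ∀ k x, HasFDerivAt ((Metric.ball x0 R).indicator (VF P H s k))
      ((Metric.ball x0 R).indicator (VD P H s k) x) x := by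
    intro k x
    refine hasFDerivAt_indicator (hasFDerivAt_VF P H s k) Metric.isOpen_ball ?_ x
    intro z hz
    filter_upwards [hcq.continuousAt.eventually (lt_mem_nhds (hfr z hz))] with y hy
    rw [VF, hcut0 y hy]; simp
  have hC : ∀ k, Continuous ((Metric.ball x0 R).indicator (VD P H s k)) := by
    intro k
    refine (continuous_VD P H s k).indicator ?_
    intro z hz
    have h1 := hfr z hz
    refine ContinuousLinearMap.ext (fun v => ?_)
    rw [VD, hcut0 z h1, chi'_zero h1]
    simp only [ContinuousLinearMap.add_apply, ContinuousLinearMap.smul_apply, smul_eq_mul,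
      zero_mul, mul_zero, Complex.ofReal_zero, add_zero, ContinuousLinearMap.zero_apply]
  have hK : ∀ k, HasCompactSupport ((Metric.ball x0 R).indicator (VF P H s k)) := by
    intro k
    refine HasCompactSupport.intro (isCompact_closedBall x0 R) ?_
    intro z hz
    exact Set.indicator_of_notMem (fun h => hz (Metric.ball_subset_closedBall h)) _
  have hI : ∀ k v, ∫ x, ((Metric.ball x0 R).indicator (VD P H s k) x) v = 0 :=
    fun k v => integral_hasFDerivAt_zero (hD k) (hC k) (hK k) v
  have hint : ∀ k v, Integrable (fun x => ((Metric.ball x0 R).indicator (VD P H s k) x) v) := by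
    intro k v
    have hs' : HasCompactSupport ((Metric.ball x0 R).indicator (VD P H s k)) := by
      refine HasCompactSupport.intro (isCompact_closedBall x0 R) ?_
      intro z hz
      exact Set.indicator_of_notMem (fun h => hz (Metric.ball_subset_closedBall h)) _
    exact ((hC k).clm_apply continuous_const).integrable_of_hasCompactSupport
      (hs'.comp_left (g := fun L : (ι → ℂ) →L[ℝ] ℂ => L v) (by simp))
  have hdb : ∀ k, ∫ x, dbarL k ((Metric.ball x0 R).indicator (VD P H s k) x) = 0 := by
    intro k
    have : (fun x => dbarL k ((Metric.ball x0 R).indicator (VD P H s k) x))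
        = fun x => (((Metric.ball x0 R).indicator (VD P H s k) x) (Pi.single k 1)
          + Complex.I * ((Metric.ball x0 R).indicator (VD P H s k) x) (Pi.single k Complex.I)) / 2 := by
      funext x; rfl
    rw [this, integral_div, integral_add (hint k _) ((hint k _).const_mul _), integral_const_mul,
      hI, hI]
    simp
  have hsum : (fun x => (Metric.ball x0 R).indicator (dens P H s) x)
      = fun x => ∑ k, dbarL k ((Metric.ball x0 R).indicator (VD P H s k) x) := by
    funext x
    by_cases hx : x ∈ Metric.ball x0 R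
    · simp only [Set.indicator_of_mem hx]
      rw [sum_dbar_VD]
    · simp only [Set.indicator_of_notMem hx]
      simp [dbarL]
  rw [hsum, integral_finset_sum]
  · exact Finset.sum_eq_zero (fun k _ => hdb k)
  · intro k _
    have : (fun x => dbarL k ((Metric.ball x0 R).indicator (VD P H s k) x))
        = fun x => (((Metric.ball x0 R).indicator (VD P H s k) x) (Pi.single k 1)
          + Complex.I * ((Metric.ball x0 R).indicator (VD P H s k) x) (Pi.single k Complex.I)) / 2 := by
      funext x; rfl
    rw [this]
    exact ((hint k _).add ((hint k _).const_mul _)).div_const _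

/-- the integrand -/
noncomputable def phi (s : ℝ) (x : ι → ℂ) : ℂ :=
  eval x H * conj (eval x (jdet P)) * (cut P s x : ℝ)

/-- the integral -/
noncomputable def II (s : ℝ) : ℂ := ∫ x in Metric.ball x0 R, phi P H s x

noncomputable def cutD (s : ℝ) (x : ι → ℂ) : ℝ :=
  (Fintype.card ι : ℝ) * s ^ (Fintype.card ι - 1) * chi (s * qp P x)
    + s ^ (Fintype.card ι) * (chi' (s * qp P x) * qp P x)

noncomputable def phiD (s : ℝ) (x : ι → ℂ) : ℂ :=
  eval x H * conj (eval x (jdet P)) * (cutD P s x : ℝ)

lemma hasDerivAt_phi (s : ℝ) (x : ι → ℂ) :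
    HasDerivAt (fun t => phi P H t x) (phiD P H s x) s := by
  unfold phi phiD
  have h1 : HasDerivAt (fun t => cut P t x) (cutD P s x) s := by
    unfold cut cutD
    have h2 := hasDerivAt_pow (Fintype.card ι) s
    have h3 : HasDerivAt (fun t : ℝ => t * qp P x) (qp P x) s := by
      simpa using (hasDerivAt_id s).mul_const (qp P x)
    have h4 := (chi_hasDerivAt (s * qp P x)).comp s h3
    exact h2.fun_mul h4
  exact (h1.ofReal_comp).const_mul _

lemma smul_phiD (s : ℝ) (x : ι → ℂ) : (s : ℂ) * phiD P H s x = dens P H s x := by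
  unfold phiD dens cutD
  have h : (Fintype.card ι : ℝ) * s ^ (Fintype.card ι - 1) * s
      = (Fintype.card ι : ℝ) * s ^ (Fintype.card ι) := by
    rcases Nat.eq_zero_or_pos (Fintype.card ι) with h0 | h0
    · simp [h0]
    · rw [mul_assoc, ← pow_succ, Nat.sub_add_cancel h0]
  have h' : ((Fintype.card ι : ℂ) * (s : ℂ) ^ (Fintype.card ι - 1) * (s : ℂ))
      = (Fintype.card ι : ℂ) * (s : ℂ) ^ (Fintype.card ι) := by exact_mod_cast h
  push_cast
  linear_combination (eval x H * conj (eval x (jdet P)) * (chi (s * qp P x) : ℂ)) * h'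

lemma continuous_phi2 : Continuous (fun z : ℝ × (ι → ℂ) => phi P H z.1 z.2) := by
  unfold phi cut
  have c0 : Continuous (fun z : ℝ × (ι → ℂ) => z.1 * qp P z.2) :=
    continuous_fst.mul ((continuous_qp P).comp continuous_snd)
  refine Continuous.mul ?_ (Complex.continuous_ofReal.comp ?_)
  · exact ((continuous_eval H).comp continuous_snd).mul (Complex.continuous_conj.comp
      ((continuous_eval (jdet P)).comp continuous_snd))
  · exact (continuous_fst.pow _).mul (continuous_chi.comp c0)

lemma continuous_phiD2 : Continuous (fun z : ℝ × (ι → ℂ) => phiD P H z.1 z.2) := by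
  unfold phiD cutD
  have c0 : Continuous (fun z : ℝ × (ι → ℂ) => z.1 * qp P z.2) :=
    continuous_fst.mul ((continuous_qp P).comp continuous_snd)
  refine Continuous.mul ?_ (Complex.continuous_ofReal.comp ?_)
  · exact ((continuous_eval H).comp continuous_snd).mul (Complex.continuous_conj.comp
      ((continuous_eval (jdet P)).comp continuous_snd))
  · refine Continuous.add ?_ ?_
    · exact (continuous_const.mul (continuous_fst.pow _)).mul (continuous_chi.comp c0)
    · exact (continuous_fst.pow _).mul ((continuous_chi'.comp c0).mul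
        ((continuous_qp P).comp continuous_snd))

lemma hasDerivAt_II (hR : 0 < R) {s : ℝ} (hs : 0 < s)
    (hS : ∀ y ∈ Metric.sphere x0 R, 1 < s * qp P y) :
    HasDerivAt (II P H x0 R) 0 s := by
  have hmeas : ∀ t, AEStronglyMeasurable (phi P H t) (volume.restrict (Metric.ball x0 R)) := by
    intro t
    exact ((continuous_phi2 P H).comp (continuous_const.prodMk continuous_id)).aestronglyMeasurable
  have hmeas' : AEStronglyMeasurable (phiD P H s) (volume.restrict (Metric.ball x0 R)) :=
    ((continuous_phiD2 P H).comp (continuous_const.prodMk continuous_id)).aestronglyMeasurable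
  have hfin : volume (Metric.ball x0 R) < ⊤ := measure_ball_lt_top
  haveI : IsFiniteMeasure (volume.restrict (Metric.ball x0 R)) :=
    ⟨by rw [Measure.restrict_apply_univ]; exact hfin⟩
  have hcomp : IsCompact ((Metric.closedBall s 1) ×ˢ (Metric.closedBall x0 R)) :=
    (isCompact_closedBall s 1).prod (isCompact_closedBall x0 R)
  obtain ⟨C, hC⟩ := hcomp.exists_bound_of_continuousOn (continuous_phiD2 P H).continuousOn
  obtain ⟨C0, hC0⟩ := hcomp.exists_bound_of_continuousOn (continuous_phi2 P H).continuousOn
  have hbd : ∀ᵐ a ∂(volume.restrict (Metric.ball x0 R)), ∀ t ∈ Metric.ball s 1,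
      ‖phiD P H t a‖ ≤ C := by
    refine (ae_restrict_iff' measurableSet_ball).mpr (Eventually.of_forall (fun a ha t ht => ?_))
    exact hC (t, a) ⟨Metric.ball_subset_closedBall ht, Metric.ball_subset_closedBall ha⟩
  have hint : Integrable (phi P H s) (volume.restrict (Metric.ball x0 R)) := by
    refine Integrable.mono' (integrable_const C0) (hmeas s) ?_
    refine (ae_restrict_iff' measurableSet_ball).mpr (Eventually.of_forall (fun a ha => ?_))
    exact hC0 (s, a) ⟨Metric.mem_closedBall_self zero_le_one, Metric.ball_subset_closedBall ha⟩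
  have key := hasDerivAt_integral_of_dominated_loc_of_deriv_le
    (μ := volume.restrict (Metric.ball x0 R)) (F := fun t a => phi P H t a)
    (F' := fun t a => phiD P H t a) (x₀ := s) (bound := fun _ => C)
    (Metric.ball_mem_nhds s one_pos) (Eventually.of_forall hmeas) hint hmeas' hbd
    (integrable_const C)
    (Eventually.of_forall (fun a t _ => hasDerivAt_phi P H t a))
  have hz : ∫ a in Metric.ball x0 R, phiD P H s a = 0 := by
    have h1 := integral_dens_zero P H x0 R hR hS
    rw [integral_indicator measurableSet_ball] at h1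
    have h2 : ∫ a in Metric.ball x0 R, dens P H s a
        = (s : ℂ) * ∫ a in Metric.ball x0 R, phiD P H s a := by
      rw [← integral_const_mul]
      exact integral_congr_ae (Eventually.of_forall (fun a => (smul_phiD P H s a).symm))
    rw [h2] at h1
    rcases mul_eq_zero.mp h1 with h3 | h3
    · exact absurd (Complex.ofReal_eq_zero.mp h3) hs.ne'
    · exact h3
  have := key.2
  rw [hz] at this
  exact this

/-- invariance of the integral -/
theorem II_const (hR : 0 < R) {s0 : ℝ} (hs0 : 0 ≤ s0)
    (hS : ∀ y ∈ Metric.sphere x0 R, 1 < s0 * qp P y) {s t : ℝ} (hs : s0 < s) (ht : s0 < t) :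
    II P H x0 R s = II P H x0 R t := by
  have hS' : ∀ r, s0 < r → ∀ y ∈ Metric.sphere x0 R, 1 < r * qp P y := by
    intro r hr y hy
    refine lt_of_lt_of_le (hS y hy) ?_
    exact mul_le_mul_of_nonneg_right hr.le (qf_nonneg _)
  have hd : ∀ r ∈ Set.Ioi s0, HasDerivAt (II P H x0 R) 0 r := fun r hr =>
    hasDerivAt_II P H x0 R hR (lt_of_le_of_lt hs0 hr) (hS' r hr)
  refine isOpen_Ioi.is_const_of_deriv_eq_zero isPreconnected_Ioi
    (fun r hr => (hd r hr).differentiableAt.differentiableWithinAt)
    (fun r hr => (hd r hr).deriv) hs ht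

end

end Pool.Agent.Lib_helper31.GC
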