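import Mathlib
import Pool.Agent.Lib_helper31.GC.Inv

open Finset Matrix MvPolynomial MeasureTheory Filter Topology
open scoped ComplexConjugate

namespace Pool.Agent.Lib_helper31.GC

set_option linter.unusedSectionVars false
set_option linter.unusedSimpArgs false
set_option linter.deprecated false

variable {ι : Type*} [Fintype ι] [DecidableEq ι]

/-- derivative of a polynomial map -/
noncomputable def pmD (P : ι → MvPolynomial ι ℂ) (x : ι → ℂ) : (ι → ℂ) →L[ℂ] (ι → ℂ) :=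
  ContinuousLinearMap.pi (fun j => polyD (P j) x)

lemma hasFDerivAt_pm (P : ι → MvPolynomial ι ℂ) (x : ι → ℂ) : HasFDerivAt (pm P) (pmD P x) x :=
  hasFDerivAt_pi.mpr (fun j => hasFDerivAt_eval (P j) x)

lemma pmD_eq (P : ι → MvPolynomial ι ℂ) (x : ι → ℂ) :
    ((pmD P x : (ι → ℂ) →L[ℂ] (ι → ℂ)) : (ι → ℂ) →ₗ[ℂ] (ι → ℂ))
      = Matrix.toLin' ((jacM P).map (eval x)) := by
  refine LinearMap.ext (fun v => funext (fun j => ?_))
  simp only [pmD, ContinuousLinearMap.coe_coe, ContinuousLinearMap.coe_pi', polyD_apply,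
    Matrix.toLin'_apply, Matrix.mulVec, dotProduct, Matrix.map_apply, jacM]

lemma det_pmD (P : ι → MvPolynomial ι ℂ) (x : ι → ℂ) :
    LinearMap.det ((pmD P x : (ι → ℂ) →L[ℂ] (ι → ℂ)) : (ι → ℂ) →ₗ[ℂ] (ι → ℂ))
      = eval x (jdet P) := by
  rw [pmD_eq, LinearMap.det_toLin', jdet, RingHom.map_det]
  rfl

lemma det_real (L : (ι → ℂ) →L[ℂ] (ι → ℂ)) :
    LinearMap.det ((L.restrictScalars ℝ : (ι → ℂ) →L[ℝ] (ι → ℂ)) : (ι → ℂ) →ₗ[ℝ] (ι → ℂ))
      = Complex.normSq (LinearMap.det (L : (ι → ℂ) →ₗ[ℂ] (ι → ℂ))) := by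
  have h := LinearMap.det_restrictScalars (R := ℝ) (S := ℂ) (A := ι → ℂ)
    (f := (L : (ι → ℂ) →ₗ[ℂ] (ι → ℂ)))
  rw [Algebra.norm_complex_apply] at h
  exact h

/-- the constant -/
noncomputable def cc (ι : Type*) [Fintype ι] : ℝ := ∫ w : ι → ℂ, chi (qf w)

omit [DecidableEq ι] in
lemma norm_sq_le_qf (w : ι → ℂ) : ‖w‖ ^ 2 ≤ qf w := by
  have h0 : ‖w‖ ≤ Real.sqrt (qf w) := by
    refine (pi_norm_le_iff_of_nonneg (Real.sqrt_nonneg _)).mpr (fun j => ?_)
    refine Real.le_sqrt_of_sq_le ?_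
    rw [← Complex.normSq_eq_norm_sq]
    exact Finset.single_le_sum (f := fun j => Complex.normSq (w j))
      (fun i _ => Complex.normSq_nonneg _) (Finset.mem_univ j)
  calc ‖w‖ ^ 2 ≤ Real.sqrt (qf w) ^ 2 := by gcongr
    _ = qf w := Real.sq_sqrt (qf_nonneg w)

omit [DecidableEq ι] in
lemma hasCompactSupport_chi_qf : HasCompactSupport (fun w : ι → ℂ => chi (qf w)) := by
  refine HasCompactSupport.intro (isCompact_closedBall 0 1) (fun w hw => ?_)
  refine chi_zero ?_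
  have h1 : 1 < ‖w‖ := by
    simpa [Metric.mem_closedBall, dist_zero_right] using hw
  nlinarith [norm_sq_le_qf w]

omit [DecidableEq ι] in
lemma cc_pos : 0 < cc ι := by
  refine (continuous_chi.comp continuous_qf).integral_pos_of_hasCompactSupport_nonneg_nonzero
    (x := 0) hasCompactSupport_chi_qf (fun w => chi_nonneg _) ?_
  have h : qf (0 : ι → ℂ) = 0 := qf_eq_zero.mpr rfl
  have h2 : 0 < chi (qf (0 : ι → ℂ)) := by rw [h]; exact chi_pos one_pos
  exact h2.ne'

lemma integral_chi_lin (L : (ι → ℂ) →L[ℂ] (ι → ℂ))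
    (hL : LinearMap.det (L : (ι → ℂ) →ₗ[ℂ] (ι → ℂ)) ≠ 0) :
    ∫ u : ι → ℂ, chi (qf (L u))
      = (Complex.normSq (LinearMap.det (L : (ι → ℂ) →ₗ[ℂ] (ι → ℂ))))⁻¹ * cc ι := by
  set A : (ι → ℂ) →ₗ[ℝ] (ι → ℂ) :=
    ((L.restrictScalars ℝ : (ι → ℂ) →L[ℝ] (ι → ℂ)) : (ι → ℂ) →ₗ[ℝ] (ι → ℂ)) with hA
  have hdet : LinearMap.det A = Complex.normSq (LinearMap.det (L : (ι → ℂ) →ₗ[ℂ] (ι → ℂ))) :=
    det_real L
  have hne : LinearMap.det A ≠ 0 := by
    rw [hdet]; exact (Complex.normSq_pos.mpr hL).ne'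
  have hmap := Measure.map_linearMap_addHaar_eq_smul_addHaar
    (volume : Measure (ι → ℂ)) hne
  have hm : AEMeasurable (A : (ι → ℂ) → (ι → ℂ)) volume :=
    (L.restrictScalars ℝ : (ι → ℂ) →L[ℝ] (ι → ℂ)).continuous.aemeasurable
  have h1 : ∫ w, chi (qf w) ∂(Measure.map A (volume : Measure (ι → ℂ)))
      = ∫ u, chi (qf (A u)) := by
    refine integral_map hm ?_
    exact (continuous_chi.comp continuous_qf).aestronglyMeasurable
  have h2 : ∫ u : ι → ℂ, chi (qf (L u)) = ∫ u, chi (qf (A u)) := rfl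
  rw [h2, ← h1, hmap, integral_smul_measure, hdet, cc, smul_eq_mul,
    ENNReal.toReal_ofReal (abs_nonneg _), abs_of_nonneg (inv_nonneg.mpr (Complex.normSq_nonneg _))]

lemma integral_scale (g : (ι → ℂ) → ℂ) (z : ι → ℂ) {c : ℝ} (hc : 0 < c) :
    ∫ x, g x = ((c ^ 2) ^ (Fintype.card ι) : ℝ) • ∫ u, g (z + c • u) := by
  have h1 : ∫ u, g (z + c • u) = |(c ^ Module.finrank ℝ (ι → ℂ))⁻¹| • ∫ x, g (z + x) :=
    Measure.integral_comp_smul volume (fun x => g (z + x)) c
  have h2 : ∫ x, g (z + x) = ∫ x, g x := integral_add_left_eq_self g z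
  have h3 : Module.finrank ℝ (ι → ℂ) = 2 * Fintype.card ι := by
    rw [Module.finrank_pi_fintype]
    simp [Complex.finrank_real_complex, mul_comm]
  rw [h1, h2, h3, pow_mul, smul_smul, abs_of_pos (inv_pos.mpr (pow_pos (pow_pos hc 2) _)),
    mul_inv_cancel₀ (pow_pos (pow_pos hc 2) _).ne', one_smul]

lemma antilip (P : ι → MvPolynomial ι ℂ) (z : ι → ℂ) (hz : pm P z = 0)
    (hJ : eval z (jdet P) ≠ 0) :
    ∃ κ > 0, ∃ r > 0, ∀ x ∈ Metric.ball z r, κ * ‖x - z‖ ^ 2 ≤ qp P x := by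
  have hker : LinearMap.ker ((pmD P z : (ι → ℂ) →L[ℂ] (ι → ℂ)) : (ι → ℂ) →ₗ[ℂ] (ι → ℂ)) = ⊥ := by
    have h2 : LinearMap.det ((pmD P z : (ι → ℂ) →L[ℂ] (ι → ℂ)) : (ι → ℂ) →ₗ[ℂ] (ι → ℂ)) ≠ 0 := by
      rw [det_pmD]; exact hJ
    exact LinearMap.ker_eq_bot.mpr
      (LinearMap.equivOfDetNeZero
        ((pmD P z : (ι → ℂ) →L[ℂ] (ι → ℂ)) : (ι → ℂ) →ₗ[ℂ] (ι → ℂ)) h2).injective
  obtain ⟨K, hK, hanti⟩ := LinearMap.exists_antilipschitzWith _ hker
  have hK' : (0 : ℝ) < K := hK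
  have hlow : ∀ v : ι → ℂ, (K : ℝ)⁻¹ * ‖v‖ ≤ ‖pmD P z v‖ := by
    intro v
    have := hanti.le_mul_dist v 0
    simp only [dist_zero_right, map_zero] at this
    rw [inv_mul_le_iff₀ hK']
    exact this
  have ho := (hasFDerivAt_pm P z).isLittleO
  rw [Asymptotics.isLittleO_iff] at ho
  have ho2 := ho (half_pos (inv_pos.mpr hK'))
  obtain ⟨r, hr, hball⟩ := Metric.eventually_nhds_iff_ball.mp ho2
  refine ⟨((K : ℝ)⁻¹ / 2) ^ 2, by positivity, r, hr, fun x hx => ?_⟩
  have h1 := hball x hx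
  rw [hz, sub_zero] at h1
  have h2 := hlow (x - z)
  have h3 : (K : ℝ)⁻¹ / 2 * ‖x - z‖ ≤ ‖pm P x‖ := by
    have h4 : ‖pmD P z (x - z)‖ ≤ ‖pm P x‖ + ‖pm P x - pmD P z (x - z)‖ := by
      have : pmD P z (x - z) = pm P x - (pm P x - pmD P z (x - z)) := by abel
      calc ‖pmD P z (x - z)‖ = ‖pm P x - (pm P x - pmD P z (x - z))‖ := by rw [← this]
        _ ≤ _ := norm_sub_le _ _
    linarith
  calc ((K : ℝ)⁻¹ / 2) ^ 2 * ‖x - z‖ ^ 2 = ((K : ℝ)⁻¹ / 2 * ‖x - z‖) ^ 2 := by ring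
    _ ≤ ‖pm P x‖ ^ 2 := by gcongr
    _ ≤ qp P x := norm_sq_le_qf _

/-- the local limit -/
lemma tendsto_II (P : ι → MvPolynomial ι ℂ) (H : MvPolynomial ι ℂ) (z : ι → ℂ) (hz : pm P z = 0)
    (hJ : eval z (jdet P) ≠ 0) {κ r : ℝ} (hκ : 0 < κ) (hr : 0 < r)
    (hb : ∀ x ∈ Metric.ball z r, κ * ‖x - z‖ ^ 2 ≤ qp P x) :
    Tendsto (II P H z r) atTop (𝓝 ((cc ι : ℂ) * (eval z H / eval z (jdet P)))) := by
  -- the rescaled integrand
  set a : (ι → ℂ) → ℂ := fun x => eval x H * conj (eval x (jdet P)) with ha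
  have hac : Continuous a := (continuous_eval H).mul
    (Complex.continuous_conj.comp (continuous_eval (jdet P)))
  set F : ℝ → (ι → ℂ) → ℂ := fun s u =>
    (Metric.ball z r).indicator (fun x => a x * (chi (s * qp P x) : ℝ)) (z + (Real.sqrt s)⁻¹ • u)
    with hF
  obtain ⟨C, hC⟩ := (isCompact_closedBall z r).exists_bound_of_continuousOn hac.continuousOn
  have hC0 : 0 ≤ C := (norm_nonneg _).trans (hC z (Metric.mem_closedBall_self hr.le))
  have hII : ∀ s, 0 < s → II P H z r s = ∫ u, F s u := by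
    intro s hs
    have hsq : 0 < (Real.sqrt s)⁻¹ := inv_pos.mpr (Real.sqrt_pos.mpr hs)
    rw [II, ← integral_indicator measurableSet_ball,
      integral_scale _ z hsq, ← integral_smul]
    refine integral_congr_ae (Eventually.of_forall (fun u => ?_))
    simp only [hF]
    by_cases hu : z + (Real.sqrt s)⁻¹ • u ∈ Metric.ball z r
    · rw [Set.indicator_of_mem hu, Set.indicator_of_mem hu, phi, cut]
      have h1 : (((Real.sqrt s)⁻¹ ^ 2) ^ (Fintype.card ι) : ℝ) * s ^ (Fintype.card ι) = 1 := by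
        rw [← mul_pow, inv_pow, Real.sq_sqrt hs.le, inv_mul_cancel₀ hs.ne', one_pow]
      have h1' : (((((Real.sqrt s)⁻¹ ^ 2) ^ (Fintype.card ι) : ℝ)) : ℂ)
          * ((s ^ (Fintype.card ι) : ℝ) : ℂ) = 1 := by
        rw [← Complex.ofReal_mul, h1, Complex.ofReal_one]
      rw [Complex.real_smul, Complex.ofReal_mul]
      simp only [ha]
      linear_combination (eval (z + (Real.sqrt s)⁻¹ • u) H *
        conj (eval (z + (Real.sqrt s)⁻¹ • u) (jdet P)) *
        ((chi (s * qp P (z + (Real.sqrt s)⁻¹ • u)) : ℝ) : ℂ)) * h1'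
    · rw [Set.indicator_of_notMem hu, Set.indicator_of_notMem hu, smul_zero]
  have hlim : ∫ u, a z * ((chi (qf (pmD P z u)) : ℝ) : ℂ)
      = (cc ι : ℂ) * (eval z H / eval z (jdet P)) := by
    rw [integral_const_mul, integral_complex_ofReal, integral_chi_lin _ (by rw [det_pmD]; exact hJ),
      det_pmD]
    have hJ' : conj (eval z (jdet P)) ≠ 0 := by
      intro h
      exact hJ (by simpa using congrArg (starRingEnd ℂ) h)
    simp only [ha]
    push_cast
    rw [Complex.normSq_eq_conj_mul_self]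
    field_simp
  rw [← hlim]
  have hev : ∀ᶠ s : ℝ in atTop, ∫ u, F s u = II P H z r s := by
    filter_upwards [eventually_gt_atTop (0 : ℝ)] with s hs using (hII s hs).symm
  refine Tendsto.congr' hev ?_
  refine tendsto_integral_filter_of_dominated_convergence
    (fun u => (Metric.closedBall (0 : ι → ℂ) (Real.sqrt κ)⁻¹).indicator (fun _ => C) u)
    ?_ ?_ ?_ ?_
  · refine Eventually.of_forall (fun s => ?_)
    have h1 : Continuous (fun x => a x * ((chi (s * qp P x) : ℝ) : ℂ)) :=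
      hac.mul (Complex.continuous_ofReal.comp
        (continuous_chi.comp (continuous_const.mul (continuous_qp P))))
    have h2 : Measurable ((Metric.ball z r).indicator
        (fun x => a x * ((chi (s * qp P x) : ℝ) : ℂ))) :=
      h1.measurable.indicator measurableSet_ball
    have h3 : Measurable (fun u : ι → ℂ => z + (Real.sqrt s)⁻¹ • u) :=
      (continuous_const.add (continuous_const_smul _)).measurable
    exact (h2.comp h3).aestronglyMeasurable
  · filter_upwards [eventually_gt_atTop (0 : ℝ)] with s hs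
    refine Eventually.of_forall (fun u => ?_)
    simp only [hF]
    by_cases hu : z + (Real.sqrt s)⁻¹ • u ∈ Metric.ball z r
    · rw [Set.indicator_of_mem hu]
      by_cases hv : u ∈ Metric.closedBall (0 : ι → ℂ) (Real.sqrt κ)⁻¹
      · rw [Set.indicator_of_mem hv, norm_mul]
        have h1 := hC _ (Metric.ball_subset_closedBall hu)
        have h2 : ‖((chi (s * qp P (z + (Real.sqrt s)⁻¹ • u)) : ℝ) : ℂ)‖ ≤ 1 := by
          rw [Complex.norm_real, Real.norm_of_nonneg (chi_nonneg _)]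
          exact chi_le_one _
        calc _ ≤ C * 1 := by gcongr
          _ = C := mul_one C
      · rw [Set.indicator_of_notMem hv]
        have h1 := hb _ hu
        have h2 : ‖z + (Real.sqrt s)⁻¹ • u - z‖ = (Real.sqrt s)⁻¹ * ‖u‖ := by
          rw [add_sub_cancel_left, norm_smul, Real.norm_of_nonneg (by positivity)]
        rw [h2, mul_pow, inv_pow, Real.sq_sqrt hs.le] at h1
        have h3 : (Real.sqrt κ)⁻¹ < ‖u‖ := by
          simpa [Metric.mem_closedBall, dist_zero_right] using hv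
        have hsk : 0 < Real.sqrt κ := Real.sqrt_pos.mpr hκ
        have h4 : 1 < κ * ‖u‖ ^ 2 := by
          have h5 : 1 < Real.sqrt κ * ‖u‖ := by
            rw [inv_lt_iff_one_lt_mul₀ hsk] at h3
            linarith
          have h6 : κ * ‖u‖ ^ 2 = (Real.sqrt κ * ‖u‖) ^ 2 := by
            rw [mul_pow, Real.sq_sqrt hκ.le]
          rw [h6]
          nlinarith
        have h7 : 1 ≤ s * qp P (z + (Real.sqrt s)⁻¹ • u) := by
          have h8 : s * (κ * (s⁻¹ * ‖u‖ ^ 2)) ≤ s * qp P (z + (Real.sqrt s)⁻¹ • u) := by gcongr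
          have h9 : s * (κ * (s⁻¹ * ‖u‖ ^ 2)) = κ * ‖u‖ ^ 2 := by field_simp
          linarith
        rw [chi_zero h7]
        simp
    · rw [Set.indicator_of_notMem hu, norm_zero]
      exact Set.indicator_nonneg (fun _ _ => hC0) _
  · refine (integrable_indicator_iff measurableSet_closedBall).mpr ?_
    exact integrableOn_const (isCompact_closedBall (0 : ι → ℂ) _).measure_lt_top.ne
  · refine Eventually.of_forall (fun u => ?_)
    have hs1 : Tendsto (fun s : ℝ => Real.sqrt s) atTop atTop := Real.tendsto_sqrt_atTop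
    have hs2 : Tendsto (fun s : ℝ => (Real.sqrt s)⁻¹) atTop (𝓝 0) :=
      tendsto_inv_atTop_zero.comp hs1
    have hx : Tendsto (fun s : ℝ => z + (Real.sqrt s)⁻¹ • u) atTop (𝓝 z) := by
      have := (tendsto_const_nhds (x := z)).add (hs2.smul_const u)
      simpa using this
    have hmem : ∀ᶠ s : ℝ in atTop, z + (Real.sqrt s)⁻¹ • u ∈ Metric.ball z r :=
      hx.eventually (Metric.ball_mem_nhds z hr)
    have hval : ∀ᶠ s : ℝ in atTop, a (z + (Real.sqrt s)⁻¹ • u) *
        ((chi (qf (Real.sqrt s • (pm P (z + (Real.sqrt s)⁻¹ • u) - pm P z))) : ℝ) : ℂ) = F s u := by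
      filter_upwards [hmem, eventually_gt_atTop (0 : ℝ)] with s h1 h2
      simp only [hF]
      rw [Set.indicator_of_mem h1, hz, sub_zero, qp]
      congr 3
      unfold qf
      rw [Finset.mul_sum]
      refine Finset.sum_congr rfl (fun j _ => ?_)
      simp only [Pi.smul_apply, Complex.real_smul, Complex.normSq_mul, Complex.normSq_ofReal]
      rw [Real.mul_self_sqrt h2.le]
    refine Tendsto.congr' hval ?_
    have h1 := ((hasFDerivAt_pm P z).restrictScalars ℝ).lim u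
      (c := fun s : ℝ => Real.sqrt s) (l := atTop)
      (hs1.congr (fun s => (Real.norm_of_nonneg (Real.sqrt_nonneg s)).symm))
    have h2 : Tendsto (fun s : ℝ => a (z + (Real.sqrt s)⁻¹ • u)) atTop (𝓝 (a z)) :=
      (hac.tendsto z).comp hx
    refine h2.mul ?_
    refine (Complex.continuous_ofReal.tendsto _).comp ?_
    exact (continuous_chi.tendsto _).comp ((continuous_qf.tendsto _).comp h1)

end Pool.Agent.Lib_helper31.GC
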