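import Mathlib
import Pool.Agent.Lib_helper31.GC.Loc

open Finset Matrix MvPolynomial MeasureTheory Filter Topology
open scoped ComplexConjugate

namespace Pool.Agent.Lib_helper31.GC

set_option linter.unusedSectionVars false
set_option linter.unusedSimpArgs false
set_option linter.deprecated false

variable {ι : Type*} [Fintype ι] [DecidableEq ι]

lemma continuous_phi (P : ι → MvPolynomial ι ℂ) (H : MvPolynomial ι ℂ) (s : ℝ) :
    Continuous (phi P H s) := by
  have h1 : Continuous (fun x : ι → ℂ => ((s, x) : ℝ × (ι → ℂ))) :=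
    continuous_const.prodMk continuous_id
  have h2 := (continuous_phi2 P H).comp h1
  exact h2

lemma integrable_indicator_phi (P : ι → MvPolynomial ι ℂ) (H : MvPolynomial ι ℂ) (s : ℝ)
    (z : ι → ℂ) (r : ℝ) : Integrable ((Metric.ball z r).indicator (phi P H s)) := by
  refine (integrable_indicator_iff measurableSet_ball).mpr ?_
  exact ((continuous_phi P H s).continuousOn.integrableOn_compact
    (isCompact_closedBall z r)).mono_set Metric.ball_subset_closedBall

lemma exists_pos_lower {K : Set (ι → ℂ)} (hK : IsCompact K) {f : (ι → ℂ) → ℝ}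
    (hf : Continuous f) (hpos : ∀ x ∈ K, 0 < f x) : ∃ m > 0, ∀ x ∈ K, m ≤ f x := by
  rcases K.eq_empty_or_nonempty with h | h
  · exact ⟨1, one_pos, fun x hx => by simp [h] at hx⟩
  · obtain ⟨x, hx, hmin⟩ := hK.exists_isMinOn h hf.continuousOn
    exact ⟨f x, hpos x hx, fun y hy => hmin hy⟩

/-- finite sets: common radius -/
lemma exists_radius (Z : Finset (ι → ℂ)) (x0 : ι → ℂ) (R : ℝ) (hZ : ∀ z ∈ Z, z ∈ Metric.ball x0 R)
    (q : (ι → ℂ) → ℝ → Prop) (hq : ∀ z ∈ Z, ∃ r > 0, ∀ r', 0 < r' → r' ≤ r → q z r') :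
    ∃ r > 0, (∀ z ∈ Z, q z r) ∧ (∀ z ∈ Z, Metric.ball z r ⊆ Metric.ball x0 R) ∧
      ∀ z ∈ Z, ∀ w ∈ Z, z ≠ w → Disjoint (Metric.ball z r) (Metric.ball w r) := by
  have h1 : ∀ᶠ r in 𝓝[>] (0 : ℝ), ∀ z ∈ Z, q z r := by
    rw [Filter.eventually_all_finset]
    intro z hz
    obtain ⟨r, hr, h⟩ := hq z hz
    filter_upwards [Ioc_mem_nhdsGT hr] with r' hr' using h r' hr'.1 hr'.2
  have h2 : ∀ᶠ r in 𝓝[>] (0 : ℝ), ∀ z ∈ Z, Metric.ball z r ⊆ Metric.ball x0 R := by
    rw [Filter.eventually_all_finset]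
    intro z hz
    obtain ⟨r, hr, h⟩ := Metric.isOpen_iff.mp Metric.isOpen_ball z (hZ z hz)
    filter_upwards [Ioc_mem_nhdsGT hr] with r' hr' using (Metric.ball_subset_ball hr'.2).trans h
  have h3 : ∀ᶠ r in 𝓝[>] (0 : ℝ), ∀ z ∈ Z, ∀ w ∈ Z, z ≠ w →
      Disjoint (Metric.ball z r) (Metric.ball w r) := by
    rw [Filter.eventually_all_finset]
    intro z hz
    rw [Filter.eventually_all_finset]
    intro w hw
    by_cases hzw : z = w
    · exact Eventually.of_forall (fun r h => absurd hzw h)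
    · have hd : 0 < dist z w / 2 := half_pos (dist_pos.mpr hzw)
      filter_upwards [Ioc_mem_nhdsGT hd] with r' hr' _
      refine Metric.ball_disjoint_ball ?_
      linarith [hr'.2]
  obtain ⟨r, hr⟩ := (h1.and (h2.and (h3.and (self_mem_nhdsWithin)))).exists
  exact ⟨r, hr.2.2.2, hr.1, hr.2.1, hr.2.2.1⟩

/-- the residue formula -/
theorem II_eq_sum (P : ι → MvPolynomial ι ℂ) (H : MvPolynomial ι ℂ) (x0 : ι → ℂ) {R : ℝ}
    (hR : 0 < R) {s0 : ℝ} (hs0 : 0 ≤ s0) (hS : ∀ y ∈ Metric.sphere x0 R, 1 < s0 * qp P y)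
    (Z : Finset (ι → ℂ)) (hZ : ∀ y, y ∈ Z ↔ y ∈ Metric.ball x0 R ∧ pm P y = 0)
    (hJ : ∀ y ∈ Z, eval y (jdet P) ≠ 0) {s : ℝ} (hs : s0 < s) :
    II P H x0 R s = (cc ι : ℂ) * ∑ z ∈ Z, eval z H / eval z (jdet P) := by
  obtain ⟨r, hr, hq, hsub, hdisj⟩ := exists_radius Z x0 R (fun z hz => ((hZ z).mp hz).1)
    (fun z r => ∃ κ > 0, ∀ x ∈ Metric.ball z r, κ * ‖x - z‖ ^ 2 ≤ qp P x) (by
      intro z hz
      obtain ⟨κ, hκ, r, hr, h⟩ := antilip P z ((hZ z).mp hz).2 (hJ z hz)
      exact ⟨r, hr, fun r' _ h2 => ⟨κ, hκ, fun x hx => h x (Metric.ball_subset_ball h2 hx)⟩⟩)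
  have hlim : Tendsto (fun t => ∑ z ∈ Z, II P H z r t) atTop
      (𝓝 (∑ z ∈ Z, (cc ι : ℂ) * (eval z H / eval z (jdet P)))) := by
    refine tendsto_finsetSum _ (fun z hz => ?_)
    obtain ⟨κ, hκ, hb⟩ := hq z hz
    exact tendsto_II P H z ((hZ z).mp hz).2 (hJ z hz) hκ hr hb
  -- outside the small balls
  have hKc : IsCompact (Metric.closedBall x0 R \ ⋃ z ∈ Z, Metric.ball z r) := by
    refine (isCompact_closedBall x0 R).diff ?_
    exact isOpen_biUnion (fun z _ => Metric.isOpen_ball)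
  obtain ⟨m, hm, hmb⟩ := exists_pos_lower hKc (continuous_qp P) (by
    rintro x ⟨hx1, hx2⟩
    refine lt_of_le_of_ne (qf_nonneg _) (fun h0 => ?_)
    have h1 : pm P x = 0 := qf_eq_zero.mp h0.symm
    by_cases hx3 : x ∈ Metric.ball x0 R
    · have h2 : x ∈ Z := (hZ x).mpr ⟨hx3, h1⟩
      exact hx2 (Set.mem_biUnion h2 (Metric.mem_ball_self hr))
    · have h2 : x ∈ Metric.sphere x0 R := by
        rw [Metric.mem_sphere]
        rw [Metric.mem_closedBall] at hx1
        rw [Metric.mem_ball] at hx3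
        linarith
      have h3 := hS x h2
      rw [← h0, mul_zero] at h3
      linarith)
  have hdec : ∀ᶠ t : ℝ in atTop, II P H x0 R t = ∑ z ∈ Z, II P H z r t := by
    filter_upwards [eventually_gt_atTop (m⁻¹)] with t ht
    have h1 : (Metric.ball x0 R).indicator (phi P H t)
        = fun x => ∑ z ∈ Z, (Metric.ball z r).indicator (phi P H t) x := by
      funext x
      by_cases hx : ∃ z ∈ Z, x ∈ Metric.ball z r
      · obtain ⟨z, hz, hxz⟩ := hx
        rw [Set.indicator_of_mem (hsub z hz hxz), Finset.sum_eq_single z]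
        · rw [Set.indicator_of_mem hxz]
        · intro w hw hwz
          refine Set.indicator_of_notMem (fun hxw => ?_) _
          exact Set.disjoint_left.mp (hdisj w hw z hz hwz) hxw hxz
        · exact fun h => absurd hz h
      · push_neg at hx
        rw [Finset.sum_eq_zero (fun z hz => Set.indicator_of_notMem (hx z hz) _)]
        by_cases hx2 : x ∈ Metric.ball x0 R
        · rw [Set.indicator_of_mem hx2]
          have h2 : x ∈ Metric.closedBall x0 R \ ⋃ z ∈ Z, Metric.ball z r := by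
            refine ⟨Metric.ball_subset_closedBall hx2, ?_⟩
            simp only [Set.mem_iUnion, not_exists]
            exact fun z hz => hx z hz
          have h3 := hmb x h2
          have ht0 : 0 < t := lt_trans (inv_pos.mpr hm) ht
          have h4 : 1 ≤ t * qp P x := by
            have h5 : 1 < t * m := (inv_lt_iff_one_lt_mul₀ hm).mp ht |>.trans_eq (by ring)
            nlinarith
          rw [phi, cut, chi_zero h4]
          simp
        · exact Set.indicator_of_notMem hx2 _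
    rw [II, ← integral_indicator measurableSet_ball, h1,
      integral_finset_sum _ (fun z _ => integrable_indicator_phi P H t z r)]
    refine Finset.sum_congr rfl (fun z _ => ?_)
    rw [II, integral_indicator measurableSet_ball]
  have hlim2 : Tendsto (fun t => II P H x0 R t) atTop
      (𝓝 (∑ z ∈ Z, (cc ι : ℂ) * (eval z H / eval z (jdet P)))) :=
    hlim.congr' (hdec.mono (fun t ht => ht.symm))
  have hconst : Tendsto (fun t => II P H x0 R t) atTop (𝓝 (II P H x0 R s)) := by
    refine (tendsto_const_nhds (x := II P H x0 R s)).congr' ?_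
    filter_upwards [eventually_gt_atTop s0] with t ht using II_const P H x0 R hR hs0 hS hs ht
  rw [tendsto_nhds_unique hconst hlim2, Finset.mul_sum]

lemma phi_jdet (P : ι → MvPolynomial ι ℂ) (s : ℝ) (x : ι → ℂ) :
    phi P (jdet P) s x = ((Complex.normSq (eval x (jdet P)) * cut P s x : ℝ) : ℂ) := by
  rw [phi, Complex.mul_conj, Complex.ofReal_mul]

lemma II_jdet_re (P : ι → MvPolynomial ι ℂ) (z : ι → ℂ) (r s : ℝ) :
    (II P (jdet P) z r s).re
      = ∫ x in Metric.ball z r, Complex.normSq (eval x (jdet P)) * cut P s x := by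
  rw [II]
  simp only [phi_jdet]
  rw [integral_complex_ofReal, Complex.ofReal_re]

/-- lower bound by one simple zero -/
theorem cc_le_II (P : ι → MvPolynomial ι ℂ) (x0 : ι → ℂ) {R : ℝ}
    (hR : 0 < R) {s0 : ℝ} (hs0 : 0 ≤ s0) (hS : ∀ y ∈ Metric.sphere x0 R, 1 < s0 * qp P y)
    {z : ι → ℂ} (hz : z ∈ Metric.ball x0 R) (hz0 : pm P z = 0)
    (hJ : eval z (jdet P) ≠ 0) {s : ℝ} (hs : s0 < s) :
    cc ι ≤ (II P (jdet P) x0 R s).re := by
  obtain ⟨r, hr, hq, hsub, -⟩ := exists_radius {z} x0 R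
    (fun w hw => by rw [Finset.mem_singleton] at hw; rw [hw]; exact hz)
    (fun z r => ∃ κ > 0, ∀ x ∈ Metric.ball z r, κ * ‖x - z‖ ^ 2 ≤ qp P x) (by
      intro w hw
      rw [Finset.mem_singleton] at hw
      rw [hw]
      obtain ⟨κ, hκ, r, hr, h⟩ := antilip P z hz0 hJ
      exact ⟨r, hr, fun r' _ h2 => ⟨κ, hκ, fun x hx => h x (Metric.ball_subset_ball h2 hx)⟩⟩)
  obtain ⟨κ, hκ, hb⟩ := hq z (Finset.mem_singleton_self z)
  have hlim := tendsto_II P (jdet P) z hz0 hJ hκ hr hb
  rw [div_self hJ, mul_one] at hlim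
  have hlim2 : Tendsto (fun t => (II P (jdet P) z r t).re) atTop (𝓝 (cc ι)) := by
    have := (Complex.continuous_re.tendsto _).comp hlim
    rw [Complex.ofReal_re] at this
    exact this
  refine le_of_tendsto hlim2 ?_
  filter_upwards [eventually_gt_atTop s0] with t ht
  rw [II_const P (jdet P) x0 R hR hs0 hS hs ht, II_jdet_re, II_jdet_re]
  have ht0 : 0 < t := lt_of_le_of_lt hs0 ht
  have hc : Continuous (fun x => Complex.normSq (eval x (jdet P)) * cut P t x) :=
    (Complex.continuous_normSq.comp (continuous_eval _)).mul (continuous_cut P t)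
  refine setIntegral_mono_set ?_ ?_ ?_
  · exact (hc.continuousOn.integrableOn_compact
      (isCompact_closedBall x0 R)).mono_set Metric.ball_subset_closedBall
  · refine Eventually.of_forall (fun x => ?_)
    exact mul_nonneg (Complex.normSq_nonneg _) (mul_nonneg (pow_nonneg ht0.le _) (chi_nonneg _))
  · exact (hsub z (Finset.mem_singleton_self z)).eventuallyLE

end Pool.Agent.Lib_helper31.GC
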