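import Mathlib
import Pool.Agent.Lib_helper31.GC.Glob

open Finset Matrix MvPolynomial MeasureTheory Filter Topology
open scoped ComplexConjugate

namespace Pool.Agent.Lib_helper31.GC

set_option linter.unusedSectionVars false
set_option linter.unusedSimpArgs false
set_option linter.deprecated false

variable {ι : Type*} [Fintype ι] [DecidableEq ι]

lemma continuous_pmD (P : ι → MvPolynomial ι ℂ) : Continuous (pmD P) := by
  have h : pmD P = fun x => ∑ j, (ContinuousLinearMap.single ℂ (fun _ : ι => ℂ) j).comp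
      (polyD (P j) x) := by
    funext x
    refine ContinuousLinearMap.ext (fun v => funext (fun i => ?_))
    simp only [pmD, ContinuousLinearMap.coe_pi', ContinuousLinearMap.coe_sum', Finset.sum_apply,
      ContinuousLinearMap.comp_apply, ContinuousLinearMap.single_apply]
    rw [Finset.sum_eq_single i]
    · simp
    · intro j _ hj
      exact Pi.single_eq_of_ne (Ne.symm hj) _
    · simp
  rw [h]
  exact continuous_finsetSum _ (fun j _ => continuous_const.clm_comp (continuous_polyD (P j)))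

section
variable {α : Type*} {l : Filter α} {P : α → ι → MvPolynomial ι ℂ} {P0 : ι → MvPolynomial ι ℂ}
  {x0 : ι → ℂ} {R : ℝ}

lemma sphere_ev (hU : TendstoUniformlyOn (fun i => pm (P i)) (pm P0) l (Metric.closedBall x0 R))
    (hS : ∀ y ∈ Metric.sphere x0 R, pm P0 y ≠ 0) :
    ∃ s0 > 0, (∀ y ∈ Metric.sphere x0 R, 1 < s0 * qp P0 y) ∧
      ∀ᶠ i in l, ∀ y ∈ Metric.sphere x0 R, 1 < s0 * qp (P i) y := by
  obtain ⟨m, hm, hmb⟩ := exists_pos_lower (isCompact_sphere x0 R)
    ((continuous_pm P0).norm) (fun x hx => norm_pos_iff.mpr (hS x hx))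
  have h1 : ∀ v : ι → ℂ, m / 2 ≤ ‖v‖ → 1 < 8 / m ^ 2 * qf v := by
    intro v hv
    have h2 := norm_sq_le_qf v
    have h3 : (m / 2) ^ 2 ≤ qf v := (by gcongr : (m / 2) ^ 2 ≤ ‖v‖ ^ 2).trans h2
    have h4 : 8 / m ^ 2 * (m / 2) ^ 2 ≤ 8 / m ^ 2 * qf v := by gcongr
    have h5 : 8 / m ^ 2 * (m / 2) ^ 2 = 2 := by field_simp; norm_num
    linarith
  refine ⟨8 / m ^ 2, by positivity, fun y hy => h1 _ (by linarith [hmb y hy]), ?_⟩
  rw [Metric.tendstoUniformlyOn_iff] at hU
  filter_upwards [hU (m / 2) (by positivity)] with i hi y hy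
  refine h1 _ ?_
  have h6 := hi y (Metric.sphere_subset_closedBall hy)
  rw [dist_eq_norm] at h6
  have h7 : ‖pm P0 y‖ ≤ ‖pm (P i) y‖ + ‖pm P0 y - pm (P i) y‖ := by
    have : pm P0 y = pm (P i) y + (pm P0 y - pm (P i) y) := by abel
    calc ‖pm P0 y‖ = ‖pm (P i) y + (pm P0 y - pm (P i) y)‖ := by rw [← this]
      _ ≤ _ := norm_add_le _ _
  linarith [hmb y hy]

lemma jdet_eq_det (P : ι → MvPolynomial ι ℂ) (y : ι → ℂ) : eval y (jdet P) = (pmD P y).det :=
  (det_pmD P y).symm

lemma jbound (hUD : TendstoUniformlyOn (fun i => pmD (P i)) (pmD P0) l (Metric.closedBall x0 R)) :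
    ∃ M, 0 ≤ M ∧ (∀ y ∈ Metric.closedBall x0 R, ‖eval y (jdet P0)‖ ≤ M) ∧
      ∀ᶠ i in l, ∀ y ∈ Metric.closedBall x0 R, ‖eval y (jdet (P i))‖ ≤ M := by
  obtain ⟨M1, hM1⟩ := (isCompact_closedBall x0 R).exists_bound_of_continuousOn
    (continuous_pmD P0).continuousOn
  haveI : ProperSpace ((ι → ℂ) →L[ℂ] (ι → ℂ)) := FiniteDimensional.proper ℂ _
  obtain ⟨M, hM⟩ := (isCompact_closedBall (0 : (ι → ℂ) →L[ℂ] (ι → ℂ)) (M1 + 1)).exists_bound_of_continuousOn
    (f := fun A => A.det) ContinuousLinearMap.continuous_det.continuousOn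
  refine ⟨max M 0, le_max_right _ _, fun y hy => ?_, ?_⟩
  · rw [jdet_eq_det]
    refine (hM _ ?_).trans (le_max_left _ _)
    rw [mem_closedBall_zero_iff]
    linarith [hM1 y hy]
  · rw [Metric.tendstoUniformlyOn_iff] at hUD
    filter_upwards [hUD 1 one_pos] with i hi y hy
    rw [jdet_eq_det]
    refine (hM _ ?_).trans (le_max_left _ _)
    rw [mem_closedBall_zero_iff]
    have h6 := hi y hy
    rw [dist_eq_norm'] at h6
    have h7 : ‖pmD (P i) y‖ ≤ ‖pmD P0 y‖ + ‖pmD (P i) y - pmD P0 y‖ := by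
      have : pmD (P i) y = pmD P0 y + (pmD (P i) y - pmD P0 y) := by abel
      calc ‖pmD (P i) y‖ = ‖pmD P0 y + (pmD (P i) y - pmD P0 y)‖ := by rw [← this]
        _ ≤ _ := norm_add_le _ _
    linarith [hM1 y hy]

/-- bounded residue sums -/
theorem BR_poly (hR : 0 < R)
    (hU : TendstoUniformlyOn (fun i => pm (P i)) (pm P0) l (Metric.closedBall x0 R))
    (hUD : TendstoUniformlyOn (fun i => pmD (P i)) (pmD P0) l (Metric.closedBall x0 R))
    (hS : ∀ y ∈ Metric.sphere x0 R, pm P0 y ≠ 0) :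
    ∃ C, ∀ᶠ i in l, ∀ Z : Finset (ι → ℂ), (∀ y, y ∈ Z ↔ y ∈ Metric.ball x0 R ∧ pm (P i) y = 0) →
      (∀ y ∈ Z, eval y (jdet (P i)) ≠ 0) → ‖∑ y ∈ Z, (eval y (jdet (P i)))⁻¹‖ ≤ C := by
  obtain ⟨s0, hs0, -, hev⟩ := sphere_ev hU hS
  obtain ⟨M, hM0, -, hM⟩ := jbound hUD
  set s := s0 + 1 with hs
  refine ⟨(M * s ^ (Fintype.card ι)) * (volume.real (Metric.ball x0 R)) / cc ι, ?_⟩
  filter_upwards [hev, hM] with i hi hMi Z hZ hJ
  have h1 := II_eq_sum (P i) 1 x0 hR hs0.le hi Z hZ hJ (lt_add_one s0)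
  have h2 : ∑ z ∈ Z, eval z (1 : MvPolynomial ι ℂ) / eval z (jdet (P i))
      = ∑ y ∈ Z, (eval y (jdet (P i)))⁻¹ :=
    Finset.sum_congr rfl (fun z _ => by rw [map_one, one_div])
  rw [h2] at h1
  have h3 : ‖II (P i) 1 x0 R (s0 + 1)‖
      ≤ (M * s ^ (Fintype.card ι)) * (volume.real (Metric.ball x0 R)) := by
    refine norm_setIntegral_le_of_norm_le_const measure_ball_lt_top (fun x hx => ?_)
    rw [phi, map_one, one_mul, norm_mul, RCLike.norm_conj, Complex.norm_real, cut]
    have h4 := hMi x (Metric.ball_subset_closedBall hx)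
    have h5 : ‖(s0 + 1) ^ Fintype.card ι * chi ((s0 + 1) * qp (P i) x)‖ ≤ s ^ (Fintype.card ι) := by
      rw [Real.norm_of_nonneg (mul_nonneg (by positivity) (chi_nonneg _))]
      calc _ ≤ (s0 + 1) ^ Fintype.card ι * 1 := by
            gcongr
            exact chi_le_one _
        _ = _ := by rw [mul_one]
    gcongr
  rw [h1, norm_mul, Complex.norm_real, Real.norm_of_nonneg cc_pos.le] at h3
  rw [le_div_iff₀ cc_pos]
  linarith

lemma tendsto_II_fam [l.IsCountablyGenerated]
    (hU : TendstoUniformlyOn (fun i => pm (P i)) (pm P0) l (Metric.closedBall x0 R))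
    (hUD : TendstoUniformlyOn (fun i => pmD (P i)) (pmD P0) l (Metric.closedBall x0 R))
    {s : ℝ} (hs : 0 ≤ s) :
    Tendsto (fun i => II (P i) (jdet (P i)) x0 R s) l (𝓝 (II P0 (jdet P0) x0 R s)) := by
  obtain ⟨M, hM0, -, hM⟩ := jbound hUD
  unfold II
  refine tendsto_integral_filter_of_dominated_convergence
    (fun _ => M * M * s ^ (Fintype.card ι)) ?_ ?_ ?_ ?_
  · exact Eventually.of_forall (fun i => (continuous_phi _ _ _).aestronglyMeasurable)
  · filter_upwards [hM] with i hMi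
    refine (ae_restrict_iff' measurableSet_ball).mpr (Eventually.of_forall (fun x hx => ?_))
    rw [phi, norm_mul, norm_mul, RCLike.norm_conj, Complex.norm_real, cut]
    have h4 := hMi x (Metric.ball_subset_closedBall hx)
    have h5 : ‖s ^ Fintype.card ι * chi (s * qp (P i) x)‖ ≤ s ^ (Fintype.card ι) := by
      rw [Real.norm_of_nonneg (mul_nonneg (by positivity) (chi_nonneg _))]
      calc _ ≤ s ^ Fintype.card ι * 1 := by
            gcongr
            exact chi_le_one _
        _ = _ := by rw [mul_one]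
    gcongr
  · exact integrableOn_const measure_ball_lt_top.ne
  · refine (ae_restrict_iff' measurableSet_ball).mpr (Eventually.of_forall (fun x hx => ?_))
    have hx' := Metric.ball_subset_closedBall hx
    have h1 : Tendsto (fun i => pm (P i) x) l (𝓝 (pm P0 x)) := hU.tendsto_at hx'
    have h2 : Tendsto (fun i => pmD (P i) x) l (𝓝 (pmD P0 x)) := hUD.tendsto_at hx'
    have h3 : Tendsto (fun i => eval x (jdet (P i))) l (𝓝 (eval x (jdet P0))) := by
      simp only [jdet_eq_det]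
      exact (ContinuousLinearMap.continuous_det.tendsto _).comp h2
    unfold phi
    refine (h3.mul ((Complex.continuous_conj.tendsto _).comp h3)).mul ?_
    refine (Complex.continuous_ofReal.tendsto _).comp ?_
    unfold cut
    refine tendsto_const_nhds.mul ((continuous_chi.tendsto _).comp (tendsto_const_nhds.mul ?_))
    exact (continuous_qf.tendsto _).comp h1

end

end Pool.Agent.Lib_helper31.GC
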