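import Mathlib
import Pool.Agent.Lib_helper31.GC.Fam

open Finset Matrix MvPolynomial MeasureTheory Filter Topology
open scoped ComplexConjugate

namespace Pool.Agent.Lib_helper31.GC

set_option linter.unusedSectionVars false
set_option linter.unusedSimpArgs false
set_option linter.deprecated false

variable {ι : Type*} [Fintype ι] [DecidableEq ι]

/-- perturbation by a multiple of the identity -/
noncomputable def pert (P0 : ι → MvPolynomial ι ℂ) (x0 : ι → ℂ) (ε : ℂ) (j : ι) :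
    MvPolynomial ι ℂ := P0 j + C ε * (X j - C (x0 j))

lemma pm_pert (P0 : ι → MvPolynomial ι ℂ) (x0 : ι → ℂ) (ε : ℂ) (y : ι → ℂ) :
    pm (pert P0 x0 ε) y = pm P0 y + ε • (y - x0) := by
  funext j
  simp [pm, pert]

lemma jacM_pert (P0 : ι → MvPolynomial ι ℂ) (x0 : ι → ℂ) (ε : ℂ) :
    jacM (pert P0 x0 ε) = jacM P0 + (C ε : MvPolynomial ι ℂ) • (1 : Matrix ι ι (MvPolynomial ι ℂ)) := by
  ext i k
  simp only [jacM, pert, Matrix.add_apply, Matrix.smul_apply, Matrix.one_apply, map_add, map_sub,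
    Derivation.leibniz, pderiv_C, pderiv_X, smul_eq_mul, Pi.single_apply]
  by_cases h : i = k
  · subst h; simp
  · simp [h, Ne.symm h]

lemma pmD_pert (P0 : ι → MvPolynomial ι ℂ) (x0 : ι → ℂ) (ε : ℂ) (y v : ι → ℂ) :
    pmD (pert P0 x0 ε) y v = pmD P0 y v + ε • v := by
  have h1 := congrArg (fun L => L v) (pmD_eq (pert P0 x0 ε) y)
  have h2 := congrArg (fun L => L v) (pmD_eq P0 y)
  simp only [ContinuousLinearMap.coe_coe] at h1 h2
  rw [h1, h2, jacM_pert]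
  simp only [Matrix.toLin'_apply]
  have : (jacM P0 + (C ε : MvPolynomial ι ℂ) • (1 : Matrix ι ι (MvPolynomial ι ℂ))).map (eval y)
      = (jacM P0).map (eval y) + ε • (1 : Matrix ι ι ℂ) := by
    ext i k
    by_cases h : i = k
    · subst h; simp
    · simp [h]
  rw [this, Matrix.add_mulVec, Matrix.smul_mulVec, Matrix.one_mulVec]

lemma eval_jdet_pert (P0 : ι → MvPolynomial ι ℂ) (x0 : ι → ℂ) (ε : ℂ) (y : ι → ℂ) :
    eval y (jdet (pert P0 x0 ε)) = (-(jacM P0).map (eval y)).charpoly.eval ε := by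
  rw [Matrix.eval_charpoly, jdet, RingHom.map_det, jacM_pert]
  congr 1
  ext i k
  by_cases h : i = k
  · subst h; simp [Matrix.scalar_apply]; ring
  · simp [h, Matrix.scalar_apply]

lemma eventually_jdet_pert (P0 : ι → MvPolynomial ι ℂ) (x0 y : ι → ℂ) :
    ∀ᶠ ε in 𝓝[≠] (0 : ℂ), eval y (jdet (pert P0 x0 ε)) ≠ 0 := by
  set p := (-(jacM P0).map (eval y)).charpoly with hp
  have hp0 : p ≠ 0 := (Matrix.charpoly_monic _).ne_zero
  have hfin : Set.Finite ((↑p.roots.toFinset : Set ℂ) \ {0}) := (Finset.finite_toSet _).diff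
  have h0 : (0 : ℂ) ∈ ((↑p.roots.toFinset : Set ℂ) \ {0})ᶜ := fun h => h.2 rfl
  have h1 : ∀ᶠ ε in 𝓝[≠] (0 : ℂ), ε ∈ ((↑p.roots.toFinset : Set ℂ) \ {0})ᶜ :=
    mem_nhdsWithin_of_mem_nhds (hfin.isClosed.isOpen_compl.mem_nhds h0)
  filter_upwards [h1, self_mem_nhdsWithin] with ε h2 h3 h4
  rw [eval_jdet_pert, ← hp] at h4
  refine h2 ⟨?_, h3⟩
  rw [Finset.mem_coe, Multiset.mem_toFinset, Polynomial.mem_roots hp0]
  exact h4

lemma pert_unif (P0 : ι → MvPolynomial ι ℂ) (x0 : ι → ℂ) (R : ℝ) :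
    TendstoUniformlyOn (fun ε => pm (pert P0 x0 ε)) (pm P0) (𝓝[≠] (0 : ℂ))
      (Metric.closedBall x0 R) := by
  rw [Metric.tendstoUniformlyOn_iff]
  intro δ hδ
  have h1 : ∀ᶠ ε in 𝓝 (0 : ℂ), ‖ε‖ * (|R| + 1) < δ := by
    have : Tendsto (fun ε : ℂ => ‖ε‖ * (|R| + 1)) (𝓝 0) (𝓝 (‖(0 : ℂ)‖ * (|R| + 1))) :=
      (continuous_norm.mul continuous_const).tendsto _
    rw [norm_zero, zero_mul] at this
    exact this.eventually (gt_mem_nhds hδ)
  filter_upwards [mem_nhdsWithin_of_mem_nhds h1] with ε hε y hy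
  rw [dist_eq_norm', pm_pert, add_sub_cancel_left, norm_smul]
  refine lt_of_le_of_lt ?_ hε
  have h2 : ‖y - x0‖ ≤ |R| + 1 := by
    rw [Metric.mem_closedBall, dist_eq_norm] at hy
    linarith [le_abs_self R]
  gcongr

lemma pert_unifD (P0 : ι → MvPolynomial ι ℂ) (x0 : ι → ℂ) (R : ℝ) :
    TendstoUniformlyOn (fun ε => pmD (pert P0 x0 ε)) (pmD P0) (𝓝[≠] (0 : ℂ))
      (Metric.closedBall x0 R) := by
  rw [Metric.tendstoUniformlyOn_iff]
  intro δ hδ
  have h1 : ∀ᶠ ε in 𝓝 (0 : ℂ), ‖ε‖ < δ := by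
    have : Tendsto (fun ε : ℂ => ‖ε‖) (𝓝 0) (𝓝 (‖(0 : ℂ)‖)) := continuous_norm.tendsto _
    rw [norm_zero] at this
    exact this.eventually (gt_mem_nhds hδ)
  filter_upwards [mem_nhdsWithin_of_mem_nhds h1] with ε hε y hy
  rw [dist_eq_norm']
  have h2 : pmD (pert P0 x0 ε) y - pmD P0 y = ε • ContinuousLinearMap.id ℂ (ι → ℂ) := by
    refine ContinuousLinearMap.ext (fun v => ?_)
    rw [ContinuousLinearMap.sub_apply, pmD_pert, add_sub_cancel_left]
    rfl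
  rw [h2, norm_smul]
  refine lt_of_le_of_lt ?_ hε
  calc ‖ε‖ * ‖ContinuousLinearMap.id ℂ (ι → ℂ)‖ ≤ ‖ε‖ * 1 := by
        gcongr
        exact ContinuousLinearMap.norm_id_le
    _ = ‖ε‖ := mul_one _

/-- a zero without multiplicity assumption gives a positive integral -/
lemma cc_le_II_of_zero (P0 : ι → MvPolynomial ι ℂ) (x0 : ι → ℂ) {R : ℝ} (hR : 0 < R)
    (hS : ∀ y ∈ Metric.sphere x0 R, pm P0 y ≠ 0) (h0 : pm P0 x0 = 0) :
    ∃ s1 > 0, ∀ s > s1, cc ι ≤ (II P0 (jdet P0) x0 R s).re := by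
  obtain ⟨s0, hs0, -, hev⟩ := sphere_ev (pert_unif P0 x0 R) hS
  refine ⟨s0, hs0, fun s hs => ?_⟩
  have hlim := tendsto_II_fam (pert_unif P0 x0 R) (pert_unifD P0 x0 R) (hs0.trans hs).le
  have hlim2 := (Complex.continuous_re.tendsto _).comp hlim
  refine ge_of_tendsto hlim2 ?_
  filter_upwards [hev, eventually_jdet_pert P0 x0 x0] with ε h1 h2
  refine cc_le_II (pert P0 x0 ε) x0 hR hs0.le h1 (Metric.mem_ball_self hR) ?_ h2 hs
  rw [pm_pert, h0]; simp

/-- persistence of zeros -/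
theorem persist_poly {α : Type*} {l : Filter α} [l.IsCountablyGenerated]
    {P : α → ι → MvPolynomial ι ℂ} {P0 : ι → MvPolynomial ι ℂ} {x0 : ι → ℂ} {R : ℝ} (hR : 0 < R)
    (hU : TendstoUniformlyOn (fun i => pm (P i)) (pm P0) l (Metric.closedBall x0 R))
    (hUD : TendstoUniformlyOn (fun i => pmD (P i)) (pmD P0) l (Metric.closedBall x0 R))
    (hS : ∀ y ∈ Metric.sphere x0 R, pm P0 y ≠ 0) (h0 : pm P0 x0 = 0) :
    ∀ᶠ i in l, ∃ y ∈ Metric.ball x0 R, pm (P i) y = 0 := by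
  obtain ⟨s0, hs0, -, hev⟩ := sphere_ev hU hS
  obtain ⟨s1, hs1, hpos⟩ := cc_le_II_of_zero P0 x0 hR hS h0
  set s := max s0 s1 + 1 with hs
  have hss0 : s0 < s := lt_of_le_of_lt (le_max_left _ _) (lt_add_one _)
  have hss1 : s1 < s := lt_of_le_of_lt (le_max_right _ _) (lt_add_one _)
  have hlim := tendsto_II_fam hU hUD (hs0.trans hss0).le
  have hlim2 := (Complex.continuous_re.tendsto _).comp hlim
  have hpos' : 0 < (II P0 (jdet P0) x0 R s).re := lt_of_lt_of_le cc_pos (hpos s hss1)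
  filter_upwards [hev, hlim2.eventually (lt_mem_nhds hpos')] with i h1 h2
  by_contra hno
  push_neg at hno
  have h3 := II_eq_sum (P i) (jdet (P i)) x0 hR hs0.le h1 ∅ (by
    intro y
    simp only [Finset.notMem_empty, false_iff, not_and]
    exact fun hy => hno y hy) (by simp) hss0
  rw [Finset.sum_empty, mul_zero] at h3
  simp only [Function.comp_apply] at h2
  rw [h3] at h2
  simp at h2

end Pool.Agent.Lib_helper31.GC
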