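import Mathlib
import Pool.Agent.Lib_helper31.GC.Persist
import Pool.Agent.Lib_helper31.GC.FinAlg

/-!
Module A for the Grassmann convexity project: polynomial maps of C^ι.
`BR`      : boundedness of the sum of 1/J over the zeros in a ball
`Persist` : an isolated zero persists
`FinAlg`  : a bounded algebraic set is finite
-/

open Finset Matrix MvPolynomial MeasureTheory Filter Topology

namespace Pool.Agent.Lib_helper31.GC

set_option linter.unusedSectionVars false

/-- a polynomial function -/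
def IsPoly {σ : Type*} (f : (σ → ℂ) → ℂ) : Prop := ∃ p : MvPolynomial σ ℂ, ∀ x, f x = eval x p

/-- a polynomial map -/
def IsPolyMap {σ κ : Type*} (F : (σ → ℂ) → κ → ℂ) : Prop := ∀ j, IsPoly (fun x => F x j)

section closure
variable {σ : Type*}

lemma IsPoly.const (c : ℂ) : IsPoly (fun _ : σ → ℂ => c) := ⟨C c, fun x => (eval_C c).symm⟩

lemma IsPoly.coord (i : σ) : IsPoly (fun x : σ → ℂ => x i) := ⟨X i, fun x => (eval_X i).symm⟩

lemma IsPoly.add {f g : (σ → ℂ) → ℂ} (hf : IsPoly f) (hg : IsPoly g) :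
    IsPoly (fun x => f x + g x) := by
  obtain ⟨p, hp⟩ := hf
  obtain ⟨q, hq⟩ := hg
  exact ⟨p + q, fun x => by simp only [map_add, hp, hq]⟩

lemma IsPoly.sub {f g : (σ → ℂ) → ℂ} (hf : IsPoly f) (hg : IsPoly g) :
    IsPoly (fun x => f x - g x) := by
  obtain ⟨p, hp⟩ := hf
  obtain ⟨q, hq⟩ := hg
  exact ⟨p - q, fun x => by simp only [map_sub, hp, hq]⟩

lemma IsPoly.neg {f : (σ → ℂ) → ℂ} (hf : IsPoly f) : IsPoly (fun x => - f x) := by
  obtain ⟨p, hp⟩ := hf
  exact ⟨-p, fun x => by simp only [map_neg, hp]⟩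

lemma IsPoly.mul {f g : (σ → ℂ) → ℂ} (hf : IsPoly f) (hg : IsPoly g) :
    IsPoly (fun x => f x * g x) := by
  obtain ⟨p, hp⟩ := hf
  obtain ⟨q, hq⟩ := hg
  exact ⟨p * q, fun x => by simp only [map_mul, hp, hq]⟩

lemma IsPoly.const_mul {f : (σ → ℂ) → ℂ} (hf : IsPoly f) (c : ℂ) : IsPoly (fun x => c * f x) :=
  (IsPoly.const c).mul hf

lemma IsPoly.pow {f : (σ → ℂ) → ℂ} (hf : IsPoly f) (n : ℕ) : IsPoly (fun x => f x ^ n) := by
  obtain ⟨p, hp⟩ := hf
  exact ⟨p ^ n, fun x => by simp only [map_pow, hp]⟩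

lemma IsPoly.sum {α : Type*} (s : Finset α) {f : α → (σ → ℂ) → ℂ} (hf : ∀ a ∈ s, IsPoly (f a)) :
    IsPoly (fun x => ∑ a ∈ s, f a x) := by
  classical
  induction s using Finset.induction_on with
  | empty => simpa using IsPoly.const (σ := σ) 0
  | insert a s ha ih =>
    simp only [Finset.sum_insert ha]
    exact (hf a (Finset.mem_insert_self _ _)).add
      (ih (fun b hb => hf b (Finset.mem_insert_of_mem hb)))

lemma IsPoly.prod {α : Type*} (s : Finset α) {f : α → (σ → ℂ) → ℂ} (hf : ∀ a ∈ s, IsPoly (f a)) :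
    IsPoly (fun x => ∏ a ∈ s, f a x) := by
  classical
  induction s using Finset.induction_on with
  | empty => simpa using IsPoly.const (σ := σ) 1
  | insert a s ha ih =>
    simp only [Finset.prod_insert ha]
    exact (hf a (Finset.mem_insert_self _ _)).mul
      (ih (fun b hb => hf b (Finset.mem_insert_of_mem hb)))

lemma IsPoly.det {n : Type*} [Fintype n] [DecidableEq n] {M : (σ → ℂ) → Matrix n n ℂ}
    (hM : ∀ i j, IsPoly (fun x => M x i j)) : IsPoly (fun x => (M x).det) := by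
  simp only [Matrix.det_apply']
  refine IsPoly.sum _ (fun τ _ => ?_)
  exact (IsPoly.prod _ (fun i _ => hM _ _)).const_mul _

/-- composition with a polynomial map -/
lemma IsPoly.comp {σ' : Type*} {f : (σ → ℂ) → ℂ} (hf : IsPoly f) {G : (σ' → ℂ) → σ → ℂ}
    (hG : IsPolyMap G) : IsPoly (fun x => f (G x)) := by
  obtain ⟨p, hp⟩ := hf
  choose q hq using hG
  refine ⟨bind₁ q p, fun x => ?_⟩
  have h1 : G x = fun j => eval x (q j) := funext (fun j => hq j x)
  simp only [hp, h1]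
  rw [← MvPolynomial.aeval_eq_eval, ← MvPolynomial.aeval_eq_eval, MvPolynomial.aeval_bind₁]

end closure

variable {ι : Type*} [Fintype ι] [DecidableEq ι]

lemma IsPolyMap.exists_pm {F : (ι → ℂ) → ι → ℂ} (hF : IsPolyMap F) :
    ∃ P : ι → MvPolynomial ι ℂ, F = pm P := by
  choose P hP using hF
  exact ⟨P, funext (fun x => funext (fun j => hP j x))⟩

lemma fderiv_pm (P : ι → MvPolynomial ι ℂ) : fderiv ℂ (pm P) = pmD P :=
  funext (fun x => (hasFDerivAt_pm P x).fderiv)

/-- (BR) -/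
theorem BR {α : Type*} {l : Filter α} {F : α → (ι → ℂ) → ι → ℂ} {F0 : (ι → ℂ) → ι → ℂ}
    (hF : ∀ i, IsPolyMap (F i)) (hF0 : IsPolyMap F0) {x : ι → ℂ} {R : ℝ} (hR : 0 < R)
    (hU : TendstoUniformlyOn F F0 l (Metric.closedBall x R))
    (hUD : TendstoUniformlyOn (fun i => fderiv ℂ (F i)) (fderiv ℂ F0) l (Metric.closedBall x R))
    (hIso : ∀ y ∈ Metric.closedBall x R, F0 y = 0 → y = x) :
    ∃ C, ∀ᶠ i in l, ∀ Z : Finset (ι → ℂ), (∀ y, y ∈ Z ↔ y ∈ Metric.ball x R ∧ F i y = 0) →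
      (∀ y ∈ Z, (fderiv ℂ (F i) y).det ≠ 0) → ‖∑ y ∈ Z, ((fderiv ℂ (F i) y).det)⁻¹‖ ≤ C := by
  choose P hP using fun i => (hF i).exists_pm
  obtain ⟨P0, rfl⟩ := hF0.exists_pm
  have hFP : F = fun i => pm (P i) := funext hP
  subst hFP
  simp only [fderiv_pm] at hUD ⊢
  simp only [← jdet_eq_det]
  refine BR_poly hR hU hUD (fun y hy h0 => ?_)
  have h1 := hIso y (Metric.sphere_subset_closedBall hy) h0
  rw [h1, Metric.mem_sphere, dist_self] at hy
  exact hR.ne hy

/-- (Persist) -/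
theorem Persist {α : Type*} {l : Filter α} [l.IsCountablyGenerated]
    {F : α → (ι → ℂ) → ι → ℂ} {F0 : (ι → ℂ) → ι → ℂ}
    (hF : ∀ i, IsPolyMap (F i)) (hF0 : IsPolyMap F0) {x : ι → ℂ} {R : ℝ} (hR : 0 < R)
    (hU : TendstoUniformlyOn F F0 l (Metric.closedBall x R))
    (hUD : TendstoUniformlyOn (fun i => fderiv ℂ (F i)) (fderiv ℂ F0) l (Metric.closedBall x R))
    (hIso : ∀ y ∈ Metric.closedBall x R, F0 y = 0 → y = x) (h0 : F0 x = 0) :
    ∀ᶠ i in l, ∃ y ∈ Metric.ball x R, F i y = 0 := by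
  choose P hP using fun i => (hF i).exists_pm
  obtain ⟨P0, rfl⟩ := hF0.exists_pm
  have hFP : F = fun i => pm (P i) := funext hP
  subst hFP
  simp only [fderiv_pm] at hUD
  refine persist_poly hR hU hUD (fun y hy h0 => ?_) h0
  have h1 := hIso y (Metric.sphere_subset_closedBall hy) h0
  rw [h1, Metric.mem_sphere, dist_self] at hy
  exact hR.ne hy

/-- (FinAlg) -/
theorem FinAlg {σ κ : Type*} [Fintype σ] {f : κ → (σ → ℂ) → ℂ} (hf : ∀ i, IsPoly (f i))
    (hb : Bornology.IsBounded {x : σ → ℂ | ∀ i, f i x = 0}) :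
    Set.Finite {x : σ → ℂ | ∀ i, f i x = 0} := by
  choose p hp using hf
  have h : {x : σ → ℂ | ∀ i, f i x = 0} = {x : σ → ℂ | ∀ i, eval x (p i) = 0} := by
    ext x; simp only [Set.mem_setOf_eq, hp]
  rw [h] at hb ⊢
  exact finite_of_isBounded_zeros p hb

/-- isolated points of a finite set -/
lemma exists_ball_of_finite {E : Type*} [MetricSpace E] {S : Set E} (hS : S.Finite) (x : E) :
    ∃ R > 0, ∀ y ∈ Metric.closedBall x R, y ∈ S → y = x := by
  have h1 : (S \ {x})ᶜ ∈ 𝓝 x :=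
    (hS.sdiff.isClosed.isOpen_compl).mem_nhds (fun h => h.2 rfl)
  obtain ⟨R, hR, h⟩ := Metric.nhds_basis_closedBall.mem_iff.mp h1
  refine ⟨R, hR, fun y hy hyS => ?_⟩
  by_contra hne
  exact h hy ⟨hyS, hne⟩

/-- joint continuity gives uniform convergence on compact sets -/
lemma tendstoUniformlyOn_of_joint {Θ X Y : Type*} [TopologicalSpace Θ] [TopologicalSpace X]
    [PseudoMetricSpace Y] {f : Θ → X → Y} (hf : Continuous (Function.uncurry f)) {K : Set X}
    (hK : IsCompact K) (θ : Θ) : TendstoUniformlyOn f (f θ) (𝓝 θ) K := by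
  rw [Metric.tendstoUniformlyOn_iff]
  intro ε hε
  have hU : IsOpen {p : Θ × X | dist (f θ p.2) (f p.1 p.2) < ε} := by
    refine isOpen_lt ?_ continuous_const
    have h1 : Continuous (fun p : Θ × X => f θ p.2) :=
      hf.comp (continuous_const.prodMk continuous_snd)
    exact h1.dist hf
  have := generalized_tube_lemma (s := {θ}) (t := K) isCompact_singleton hK hU (by
    rintro ⟨a, b⟩ ⟨ha, -⟩
    rw [Set.mem_singleton_iff] at ha
    simp only at ha
    subst ha
    simpa using hε)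
  obtain ⟨u, v, hu, hv, hθu, hKv, huv⟩ := this
  filter_upwards [hu.mem_nhds (hθu rfl)] with a ha x hx
  exact huv (Set.mk_mem_prod ha (hKv hx))

/-- joint continuity along a convergent family of parameters -/
lemma tendstoUniformlyOn_of_joint' {Θ X Y α : Type*} [TopologicalSpace Θ] [TopologicalSpace X]
    [PseudoMetricSpace Y] {f : Θ → X → Y} (hf : Continuous (Function.uncurry f)) {K : Set X}
    (hK : IsCompact K) {l : Filter α} {u : α → Θ} {θ : Θ} (hu : Tendsto u l (𝓝 θ)) :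
    TendstoUniformlyOn (fun i => f (u i)) (f θ) l K := by
  have h := tendstoUniformlyOn_of_joint hf hK θ
  rw [Metric.tendstoUniformlyOn_iff] at h ⊢
  exact fun ε hε => hu.eventually (h ε hε)

omit [DecidableEq ι] in
lemma norm_fderiv_le_of_ball {G : (ι → ℂ) → ι → ℂ} (hG : Differentiable ℂ G) {y : ι → ℂ}
    {C r : ℝ} (hr : 0 < r) (hC : ∀ w ∈ Metric.closedBall y r, ‖G w‖ ≤ C) :
    ‖fderiv ℂ G y‖ ≤ C / r := by
  have hC0 : 0 ≤ C := (norm_nonneg _).trans (hC y (Metric.mem_closedBall_self hr.le))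
  refine ContinuousLinearMap.opNorm_le_of_unit_norm (div_nonneg hC0 hr.le) (fun v hv => ?_)
  have hlin : ∀ t : ℂ, HasDerivAt (fun t : ℂ => y + t • v) v t := by
    intro t
    simpa using ((hasDerivAt_id t).smul_const v).const_add y
  have hd : Differentiable ℂ (fun t : ℂ => G (y + t • v)) := fun t =>
    ((hG _).hasFDerivAt.comp_hasDerivAt t (hlin t)).differentiableAt
  have h0 : deriv (fun t : ℂ => G (y + t • v)) 0 = fderiv ℂ G y v := by
    have h1 := (hG (y + (0 : ℂ) • v)).hasFDerivAt.comp_hasDerivAt (0 : ℂ) (hlin 0)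
    have h2 := h1.deriv
    simp only [zero_smul, add_zero] at h2
    exact h2
  rw [← h0]
  refine Complex.norm_deriv_le_of_forall_mem_sphere_norm_le hr hd.diffContOnCl (fun t ht => ?_)
  refine hC _ ?_
  rw [Metric.mem_closedBall, dist_eq_norm, add_sub_cancel_left, norm_smul, hv, mul_one]
  rw [mem_sphere_zero_iff_norm] at ht
  exact ht.le

omit [DecidableEq ι] in
/-- uniform convergence of entire maps gives uniform convergence of the derivatives -/
lemma unifD_of_unif {α : Type*} {l : Filter α} {F : α → (ι → ℂ) → ι → ℂ}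
    {F0 : (ι → ℂ) → ι → ℂ} (hF : ∀ i, Differentiable ℂ (F i)) (hF0 : Differentiable ℂ F0)
    {x : ι → ℂ} {R R' : ℝ} (hRR : R < R')
    (hU : TendstoUniformlyOn F F0 l (Metric.closedBall x R')) :
    TendstoUniformlyOn (fun i => fderiv ℂ (F i)) (fderiv ℂ F0) l (Metric.closedBall x R) := by
  rw [Metric.tendstoUniformlyOn_iff] at hU ⊢
  intro ε hε
  have hr : 0 < R' - R := sub_pos.mpr hRR
  filter_upwards [hU (ε / 2 * (R' - R)) (by positivity)] with i hi y hy
  have h1 : ‖fderiv ℂ (fun w => F0 w - F i w) y‖ ≤ (ε / 2 * (R' - R)) / (R' - R) := by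
    refine norm_fderiv_le_of_ball (hF0.sub (hF i)) hr (fun w hw => ?_)
    rw [Pi.sub_apply, ← dist_eq_norm]
    refine (hi w ?_).le
    rw [Metric.mem_closedBall] at hw hy ⊢
    linarith [dist_triangle w y x]
  rw [fderiv_fun_sub (hF0 y) (hF i y), mul_div_cancel_right₀ _ hr.ne'] at h1
  rw [dist_eq_norm]
  linarith

lemma IsPolyMap.differentiable {F : (ι → ℂ) → ι → ℂ} (hF : IsPolyMap F) : Differentiable ℂ F := by
  obtain ⟨P, rfl⟩ := hF.exists_pm
  exact fun x => (hasFDerivAt_pm P x).differentiableAt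

/-- (BR) with uniform convergence on a larger ball only -/
theorem BR' {α : Type*} {l : Filter α} {F : α → (ι → ℂ) → ι → ℂ} {F0 : (ι → ℂ) → ι → ℂ}
    (hF : ∀ i, IsPolyMap (F i)) (hF0 : IsPolyMap F0) {x : ι → ℂ} {R R' : ℝ} (hR : 0 < R)
    (hRR : R < R') (hU : TendstoUniformlyOn F F0 l (Metric.closedBall x R'))
    (hIso : ∀ y ∈ Metric.closedBall x R, F0 y = 0 → y = x) :
    ∃ C, ∀ᶠ i in l, ∀ Z : Finset (ι → ℂ), (∀ y, y ∈ Z ↔ y ∈ Metric.ball x R ∧ F i y = 0) →
      (∀ y ∈ Z, (fderiv ℂ (F i) y).det ≠ 0) → ‖∑ y ∈ Z, ((fderiv ℂ (F i) y).det)⁻¹‖ ≤ C :=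
  BR hF hF0 hR (hU.mono (Metric.closedBall_subset_closedBall hRR.le))
    (unifD_of_unif (fun i => (hF i).differentiable) hF0.differentiable hRR hU) hIso

/-- (Persist) with uniform convergence on a larger ball only -/
theorem Persist' {α : Type*} {l : Filter α} [l.IsCountablyGenerated]
    {F : α → (ι → ℂ) → ι → ℂ} {F0 : (ι → ℂ) → ι → ℂ}
    (hF : ∀ i, IsPolyMap (F i)) (hF0 : IsPolyMap F0) {x : ι → ℂ} {R R' : ℝ} (hR : 0 < R)
    (hRR : R < R') (hU : TendstoUniformlyOn F F0 l (Metric.closedBall x R'))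
    (hIso : ∀ y ∈ Metric.closedBall x R, F0 y = 0 → y = x) (h0 : F0 x = 0) :
    ∀ᶠ i in l, ∃ y ∈ Metric.ball x R, F i y = 0 :=
  Persist hF hF0 hR (hU.mono (Metric.closedBall_subset_closedBall hRR.le))
    (unifD_of_unif (fun i => (hF i).differentiable) hF0.differentiable hRR hU) hIso h0

end Pool.Agent.Lib_helper31.GC
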